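import Pool.Agent.N871.P15.Par
import Pool.Agent.N969.P15.Defs2
import Pool.Agent.N972.PC15.XC
import Pool.Agent.N877.P15.SR
import Pool.Agent.N973.P15.REL22
import Pool.Agent.N973.P15.CP3

/-!
# The parity of the Gross sums, unconditionally
-/

set_option autoImplicit false

namespace Pool.Agent.N871.P15

open Pool.Agent.N969.P15

theorem s_CP3 : S_CP3 := Pool.Agent.N973.P15.t_CP3 Pool.Agent.N972.PC15.t_PC

theorem s_U33' : S_U33 := s_U33 Pool.Agent.N972.PC15.t_PC Pool.Agent.N973.P15.t_REL22 s_CP3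

theorem s_U32' : S_U32 := s_U32 Pool.Agent.N972.PC15.t_PC

theorem s_PAR : S_PAR :=
  t_PAR Pool.Agent.N972.PC15.t_PC Pool.Agent.N877.P15.t_R Pool.Agent.N973.P15.t_REL22 s_CP3

theorem t_PAR3 (hR : S_R) (hU : S_U33) : S_PAR3 := by
  intro m hm
  obtain ⟨g, z, h1, h2⟩ := ind33 hR hU m hm
  refine ⟨g, g + 2 * z, h1, ?_, ?_⟩
  · rw [h2, h1]
    have : (2 : ℤ) ^ (m.primeFactors.card + 2) = 2 * 2 ^ (m.primeFactors.card + 1) := by
      rw [pow_succ']
    rw [this]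
    ring
  · rw [Int.odd_add]
    exact ⟨fun h => h.2 (even_two_mul z), fun h => ⟨fun _ => even_two_mul z, fun _ => h⟩⟩

theorem s_PAR3 : S_PAR3 := t_PAR3 Pool.Agent.N877.P15.t_R s_U33'

end Pool.Agent.N871.P15
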