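import Pool.Agent.N871.P15.Five
import Pool.Agent.N973.P15.Defs3

/-!
# `S_PARA5` in the form of `N973/P15/Defs3`
-/

set_option autoImplicit false

namespace Pool.Agent.N871.P15

theorem t_PARA5 (h : Pool.Agent.N973.P15.S_R5) : Pool.Agent.N973.P15.S_PARA5 := by
  intro n hn
  have h5 : Pool.Agent.N871.P15.S_PAR5 := s_PAR5 h
  rcases hn with ⟨h1, h2, h3, h4⟩ | ⟨h1, h2, h3, h4⟩
  · exact h5 n h1 h2 h4 (by omega)
  · exact h5 n h1 h2 h4 (by omega)

end Pool.Agent.N871.P15
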