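import Pool.Agent.N871.P15.U

/-!
# The parity of the Gross sums: `S_PAR`
-/

set_option autoImplicit false

namespace Pool.Agent.N871.P15

open Finset
open Pool.Agent.Z700 (hh fac)
open Pool.Agent.N969.P15

theorem three_ip (v : V3) : 3 * ip v v =
    (3 * v 0 - v 1 - v 2) ^ 2 + 20 * (v 1 ^ 2 - v 1 * v 2 + v 2 ^ 2) := by
  unfold ip
  ring

theorem vec_three : vec 3 = {![1, 0, 0], ![-1, 0, 0]} := by
  ext v
  rw [mem_vec, Finset.mem_insert, Finset.mem_singleton]
  constructor
  · intro h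
    have h1 := three_ip v
    rw [h] at h1
    have h2 : v 1 ^ 2 - v 1 * v 2 + v 2 ^ 2 ≤ 0 := by
      nlinarith [sq_nonneg (3 * v 0 - v 1 - v 2)]
    have h3 : v 1 = 0 := by nlinarith [sq_nonneg (v 1), sq_nonneg (v 1 - 2 * v 2)]
    have h4 : v 2 = 0 := by rw [h3] at h2; nlinarith
    rw [h3, h4] at h1
    have h5 : v 0 ^ 2 = 1 := by linarith
    have h7 : (v 0 - 1) * (v 0 + 1) = 0 := by linear_combination h5
    have h8 : v 0 = 1 ∨ v 0 = -1 := by
      rcases mul_eq_zero.1 h7 with h | h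
      · left; linarith
      · right; linarith
    rcases h8 with h6 | h6
    · left
      ext i; fin_cases i <;> simp [h3, h4, h6]
    · right
      ext i; fin_cases i <;> simp [h3, h4, h6]
  · rintro (rfl | rfl) <;> simp [ip]

theorem rr_three : rr 3 = 2 := by
  rw [rr, vec_three, Finset.card_pair]
  · rfl
  · intro h
    have := congrFun h 0
    norm_num at this

theorem rr0_three : rr0 3 = 2 := by
  rw [rr0, vec_three, Finset.filter_true_of_mem, Finset.card_pair]
  · rfl
  · intro h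
    have := congrFun h 0
    norm_num at this
  · intro v hv
    rw [Finset.mem_insert, Finset.mem_singleton] at hv
    rcases hv with rfl | rfl <;> simp

theorem cc_three : cc 3 = -6 := by
  rw [cc, if_pos (by norm_num), rr_three, rr0_three]
  norm_num

theorem vec_zero {n : ℕ} (h : n % 5 = 1 ∨ n % 5 = 4) : vec (n : ℤ) = ∅ := by
  rw [Finset.eq_empty_iff_forall_notMem]
  intro v hv
  rw [mem_vec] at hv
  have h1 := three_ip v
  rw [hv] at h1
  generalize 3 * v 0 - v 1 - v 2 = u at h1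
  generalize v 1 ^ 2 - v 1 * v 2 + v 2 ^ 2 = N at h1
  have h9 : u % 5 = 0 ∨ u % 5 = 1 ∨ u % 5 = 2 ∨ u % 5 = 3 ∨ u % 5 = 4 := by omega
  rcases h9 with h9 | h9 | h9 | h9 | h9
  · have : u ^ 2 % 5 = 0 := by rw [sq, Int.mul_emod, h9]; norm_num
    omega
  · have : u ^ 2 % 5 = 1 := by rw [sq, Int.mul_emod, h9]; norm_num
    omega
  · have : u ^ 2 % 5 = 4 := by rw [sq, Int.mul_emod, h9]; norm_num
    omega
  · have : u ^ 2 % 5 = 4 := by rw [sq, Int.mul_emod, h9]; norm_num
    omega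
  · have : u ^ 2 % 5 = 1 := by rw [sq, Int.mul_emod, h9]; norm_num
    omega

theorem rr_zero {n : ℕ} (h : n % 5 = 1 ∨ n % 5 = 4) : rr n = 0 := by
  rw [rr, vec_zero h]; rfl

theorem cc_zero {n : ℕ} (h : n % 5 = 1 ∨ n % 5 = 4) : cc n = 0 := by
  rw [cc, rr0, vec_zero h, rr_zero h]
  simp

theorem card_mul {a b : ℕ} (h : Squarefree (a * b)) :
    (a * b).primeFactors.card = a.primeFactors.card + b.primeFactors.card := by
  have h1 : Nat.Coprime a b := (Nat.squarefree_mul_iff.1 h).1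
  have ha : a ≠ 0 := by rintro rfl; simp at h
  have hb : b ≠ 0 := by rintro rfl; simp at h
  rw [Nat.primeFactors_mul ha hb, Finset.card_union_of_disjoint h1.disjoint_primeFactors]

theorem odd_dvd_cancel {k : ℕ} {x : ℤ} (h : (2 : ℤ) ^ k ∣ 3 * x) : (2 : ℤ) ^ k ∣ x := by
  have : IsCoprime ((2 : ℤ) ^ k) 3 := by
    apply IsCoprime.pow_left
    exact ⟨-1, 1, by norm_num⟩
  exact this.dvd_of_dvd_mul_left h

theorem mod_div {m d q : ℕ} (hd : d ∣ m) : (d % q) * (m / d % q) % q = m % q := by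
  rw [← Nat.mul_mod, Nat.mul_div_cancel' hd]

/-- the congruence for the classes `3 m` -/
theorem ind33 (hR : S_R) (hU : S_U33) : ∀ m : ℕ, Cls3 m →
    ∃ g z : ℤ, rr (3 * m : ℕ) = 2 ^ (m.primeFactors.card + 1) * g ∧
      cc (3 * m : ℕ) = rr (3 * m : ℕ) + 2 ^ (m.primeFactors.card + 2) * z := by
  intro m
  induction m using Nat.strong_induction_on with
  | _ m ih =>
  intro hm
  obtain ⟨hs, h4, h3, h5⟩ := hm
  by_cases hm1 : m = 1
  · subst hm1
    refine ⟨1, -2, ?_, ?_⟩
    · have : ((3 * 1 : ℕ) : ℤ) = 3 := by norm_num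
      rw [this, rr_three]
      simp
    · have : ((3 * 1 : ℕ) : ℤ) = 3 := by norm_num
      rw [this, rr_three, cc_three]
      simp
  have hm0 : m ≠ 0 := hs.ne_zero
  have hm1' : 1 < m := by omega
  set k := m.primeFactors.card with hk
  have hs3 : Squarefree (3 * m) := by
    rw [Nat.squarefree_mul_iff]
    exact ⟨(Nat.Prime.coprime_iff_not_dvd Nat.prime_three).2 h3, Nat.prime_three.squarefree, hs⟩
  have hc3 : (3 * m).primeFactors.card = k + 1 := by
    rw [card_mul hs3, Nat.Prime.primeFactors Nat.prime_three, Finset.card_singleton, add_comm]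
  obtain ⟨g, hg, -⟩ := hR (3 * m) hs3 (by omega) (by omega) (by omega)
  rw [hc3] at hg
  set R := rr (3 * m : ℕ) with hRd
  set C := cc (3 * m : ℕ) with hCd
  -- the terms
  set Q : ℕ → ℤ := fun d => 12 * (cp0 (3 * d : ℕ) (3 * (m / d) : ℕ) : ℤ) with hQ
  have hQ1 : ∀ d, d ∣ m → Q d = 3 * rr (3 * d : ℕ) * rr (3 * (m / d) : ℕ) +
      cc (3 * d : ℕ) * cc (3 * (m / d) : ℕ) := by
    intro d hd
    have h3d : ¬ 3 ∣ d := fun h => h3 (h.trans hd)
    have h3d' : ¬ 3 ∣ m / d := fun h => h3 (h.trans (Nat.div_dvd_of_dvd hd))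
    exact s_REL33 (3 * d) (3 * (m / d)) (Dvd.intro _ rfl) (by omega) (Dvd.intro _ rfl) (by omega)
  have hQs : ∀ d, d ∣ m → Q (m / d) = Q d := by
    intro d hd
    rw [hQ1 d hd, hQ1 _ (Nat.div_dvd_of_dvd hd), Nat.div_div_self hd hm0]
    ring
  have hQone : Q 1 = 6 * (R - C) := by
    rw [hQ1 1 (one_dvd m), Nat.div_one]
    have : ((3 * 1 : ℕ) : ℤ) = 3 := by norm_num
    rw [this, rr_three, cc_three]
    ring
  have hQd : ∀ d, d ∣ m → d % 4 = 1 → 1 < d → d < m → (2 : ℤ) ^ (k + 3) ∣ Q d := by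
    intro d hd hd4 hd1 hdm
    rw [hQ1 d hd]
    by_cases hd5 : d % 5 = 1 ∨ d % 5 = 4
    · have hmd := mod_div (q := 4) hd
      have hmd5 := mod_div (q := 5) hd
      have e1 : d * (m / d) = m := Nat.mul_div_cancel' hd
      have c1 : Cls3 d := ⟨hs.squarefree_of_dvd hd, hd4, fun h => h3 (h.trans hd), hd5⟩
      have c2 : Cls3 (m / d) := by
        refine ⟨hs.squarefree_of_dvd (Nat.div_dvd_of_dvd hd), ?_,
          fun h => h3 (h.trans (Nat.div_dvd_of_dvd hd)), ?_⟩
        · rw [hd4, h4] at hmd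
          omega
        · rcases hd5 with h | h <;> rw [h] at hmd5 <;> omega
      obtain ⟨g1, z1, r1, s1⟩ := ih d hdm c1
      obtain ⟨g2, z2, r2, s2⟩ := ih (m / d) (Nat.div_lt_self (by omega) hd1) c2
      have hcard : k = d.primeFactors.card + (m / d).primeFactors.card := by
        rw [hk, ← card_mul (by rw [e1]; exact hs), e1]
      rw [s1, s2, r1, r2, hcard]
      refine ⟨2 * g1 * g2 + g1 * z2 + g2 * z1 + 2 * z1 * z2, ?_⟩
      ring
    · have : (3 * d) % 5 = 1 ∨ (3 * d) % 5 = 4 := by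
        have h5d : ¬ 5 ∣ d := fun h => by have := h.trans hd; omega
        have : d % 5 = 2 ∨ d % 5 = 3 := by omega
        rcases this with h | h
        · left; omega
        · right; omega
      rw [rr_zero this, cc_zero this]
      simp
  -- the sum
  have hsum := hU m ⟨hs, h4, h3, h5⟩ hm1'
  rw [← hk] at hsum
  set D := m.divisors.filter (fun d => d % 4 = 1) with hD
  have e1 : 12 * ∑ d ∈ D, (cp0 (3 * d : ℕ) (3 * (m / d) : ℕ) : ℤ) = ∑ d ∈ D, Q d := by
    rw [Finset.mul_sum]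
  have e2 : ∑ d ∈ D, Q d = 2 * ∑ d ∈ D.filter (fun d => d * d < m), Q d := by
    rw [← Finset.sum_filter_add_sum_filter_not D (fun d => d * d < m), two_mul]
    congr 1
    refine Finset.sum_nbij' (fun d => m / d) (fun d => m / d) ?_ ?_ ?_ ?_ ?_
    · intro d hd
      rw [Finset.mem_filter, hD, Finset.mem_filter, Nat.mem_divisors] at hd ⊢
      obtain ⟨⟨⟨hdm, -⟩, hd4⟩, hdd⟩ := hd
      refine ⟨⟨⟨Nat.div_dvd_of_dvd hdm, hm0⟩, ?_⟩, ?_⟩
      · have hmd := mod_div (q := 4) hdm
        rw [hd4, h4] at hmd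
        omega
      · have e3 : d * (m / d) = m := Nat.mul_div_cancel' hdm
        have hne : d ≠ m / d := by
          intro h
          rw [← h] at e3
          have := Nat.isUnit_iff.1 (hs d ⟨1, by rw [mul_one]; exact e3.symm⟩)
          rw [this] at e3
          omega
        have hd0 : 0 < d := Nat.pos_of_dvd_of_pos hdm (by omega)
        have hlt : m / d < d := by
          by_contra hcon
          have : d < m / d := by omega
          apply hdd
          calc d * d < d * (m / d) := Nat.mul_lt_mul_of_pos_left this hd0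
            _ = m := e3
        have hpos : 0 < m / d := Nat.div_pos (Nat.le_of_dvd (by omega) hdm) hd0
        calc (m / d) * (m / d) < d * (m / d) := Nat.mul_lt_mul_of_pos_right hlt hpos
          _ = m := e3
    · intro d hd
      rw [Finset.mem_filter, hD, Finset.mem_filter, Nat.mem_divisors] at hd ⊢
      obtain ⟨⟨⟨hdm, -⟩, hd4⟩, hdd⟩ := hd
      refine ⟨⟨⟨Nat.div_dvd_of_dvd hdm, hm0⟩, ?_⟩, ?_⟩
      · have hmd := mod_div (q := 4) hdm
        rw [hd4, h4] at hmd
        omega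
      · have e3 : d * (m / d) = m := Nat.mul_div_cancel' hdm
        have hd0 : 0 < d := Nat.pos_of_dvd_of_pos hdm (by omega)
        intro hcon
        have hlt : d < m / d := by
          by_contra h
          have : m / d ≤ d := by omega
          have : m ≤ d * d := by
            calc m = d * (m / d) := e3.symm
              _ ≤ d * d := Nat.mul_le_mul_left _ this
          omega
        have : m < (m / d) * (m / d) := by
          calc m = d * (m / d) := e3.symm
            _ < (m / d) * (m / d) := Nat.mul_lt_mul_of_pos_right hlt (by omega)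
        omega
    · intro d hd
      rw [Finset.mem_filter, hD, Finset.mem_filter, Nat.mem_divisors] at hd
      exact Nat.div_div_self hd.1.1.1 hm0
    · intro d hd
      rw [Finset.mem_filter, hD, Finset.mem_filter, Nat.mem_divisors] at hd
      exact Nat.div_div_self hd.1.1.1 hm0
    · intro d hd
      rw [Finset.mem_filter, hD, Finset.mem_filter, Nat.mem_divisors] at hd
      exact (hQs d hd.1.1.1).symm
  have h1D : 1 ∈ D.filter (fun d => d * d < m) := by
    rw [Finset.mem_filter, hD, Finset.mem_filter, Nat.mem_divisors]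
    exact ⟨⟨⟨one_dvd m, hm0⟩, by norm_num⟩, by omega⟩
  have e3 : (2 : ℤ) ^ (k + 3) ∣ ∑ d ∈ (D.filter (fun d => d * d < m)).erase 1, Q d := by
    refine Finset.dvd_sum fun d hd => ?_
    rw [Finset.mem_erase, Finset.mem_filter, hD, Finset.mem_filter, Nat.mem_divisors] at hd
    obtain ⟨hd1, ⟨⟨hdm, -⟩, hd4⟩, hdd⟩ := hd
    refine hQd d hdm hd4 (by omega) ?_
    nlinarith
  obtain ⟨c, hc⟩ := hsum
  obtain ⟨w, hw⟩ := e3
  rw [hc, e2, ← Finset.add_sum_erase _ _ h1D, hw, hQone] at e1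
  have e4 : (2 : ℤ) ^ (k + 2) ∣ 3 * (C - R) := by
    refine ⟨w - 3 * c, ?_⟩
    have : 4 * (3 * (C - R)) = 4 * (2 ^ (k + 2) * (w - 3 * c)) := by
      have e5 : (2 : ℤ) ^ (k + 3) = 2 * 2 ^ (k + 2) := by rw [pow_succ']
      rw [e5] at e1
      linear_combination e1
    linarith
  obtain ⟨z, hz⟩ := odd_dvd_cancel e4
  exact ⟨g, z, hg, by linarith⟩

/-- the congruence for the classes of the main theorem -/
theorem ind32 (hR : S_R) (hU : S_U33) (hV : S_U32) : ∀ n : ℕ, Cls0 n →
    ∃ g z : ℤ, rr n = 2 ^ n.primeFactors.card * g ∧ (Odd g ↔ Qc n) ∧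
      cc n = rr n + 2 ^ (n.primeFactors.card + 1) * z := by
  intro n
  induction n using Nat.strong_induction_on with
  | _ n ih =>
  intro hn
  have hn' := hn
  obtain ⟨hs, h60⟩ := hn
  have hn0 : n ≠ 0 := hs.ne_zero
  obtain ⟨g, hg, hgQ⟩ := hR n hs (by omega) (by omega) (by omega)
  set t := n.primeFactors.card with ht
  set Q : ℕ → ℤ := fun d => 6 * (cp0 (3 * d : ℕ) (n / d : ℕ) : ℤ) with hQ
  have h3 : ¬ 3 ∣ n := by omega
  have hQ1 : ∀ d, d ∣ n → n / d % 3 = 2 → Q d = 3 * rr (3 * d : ℕ) * rr (n / d : ℕ) +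
      cc (3 * d : ℕ) * cc (n / d : ℕ) := by
    intro d hd h
    have h3d : ¬ 3 ∣ d := fun h => h3 (h.trans hd)
    exact s_REL32 (3 * d) (n / d) (Dvd.intro _ rfl) (by omega) h
  have hQone : Q 1 = 6 * (rr n - cc n) := by
    rw [hQ1 1 (one_dvd n) (by rw [Nat.div_one]; omega), Nat.div_one]
    have : ((3 * 1 : ℕ) : ℤ) = 3 := by norm_num
    rw [this, rr_three, cc_three]
    ring
  have hQd : ∀ d, d ∣ n → d % 4 = 1 → 1 < d → (2 : ℤ) ^ (t + 2) ∣ Q d := by
    intro d hd hd4 hd1
    have h3d : ¬ 3 ∣ d := fun h => h3 (h.trans hd)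
    have hnd3 := mod_div (q := 3) hd
    have hnd4 := mod_div (q := 4) hd
    have hnd5 := mod_div (q := 5) hd
    have h3d' : ¬ 3 ∣ n / d := fun h => h3 (h.trans (Nat.div_dvd_of_dvd hd))
    by_cases h32 : n / d % 3 = 2
    swap
    · have : Q d = 0 := by
        have := s_REL31 (3 * d) (n / d) (Dvd.intro _ rfl) (by omega) (by omega)
        simp only [hQ]
        rw [this]
        rfl
      rw [this]
      exact dvd_zero _
    rw [hQ1 d hd h32]
    by_cases hd5 : d % 5 = 1 ∨ d % 5 = 4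
    · have e1 : d * (n / d) = n := Nat.mul_div_cancel' hd
      have c1 : Cls3 d := ⟨hs.squarefree_of_dvd hd, hd4, h3d, hd5⟩
      have c2 : Cls0 (n / d) := by
        refine ⟨hs.squarefree_of_dvd (Nat.div_dvd_of_dvd hd), ?_⟩
        rw [hd4] at hnd4
        rcases hd5 with h | h <;> rw [h] at hnd5 <;> omega
      obtain ⟨g1, z1, r1, s1⟩ := ind33 hR hU d c1
      obtain ⟨g2, z2, r2, -, s2⟩ := ih (n / d) (Nat.div_lt_self (by omega) hd1) c2
      have hcard : t = d.primeFactors.card + (n / d).primeFactors.card := by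
        rw [ht, ← card_mul (by rw [e1]; exact hs), e1]
      rw [s1, s2, r1, r2, hcard]
      refine ⟨2 * g1 * g2 + g1 * z2 + g2 * z1 + 2 * z1 * z2, ?_⟩
      ring
    · have : (3 * d) % 5 = 1 ∨ (3 * d) % 5 = 4 := by
        have h5d : ¬ 5 ∣ d := fun h => by have := h.trans hd; omega
        have : d % 5 = 2 ∨ d % 5 = 3 := by omega
        rcases this with h | h
        · left; omega
        · right; omega
      rw [rr_zero this, cc_zero this]
      simp
  have hsum := hV n hn'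
  rw [← ht] at hsum
  set D := n.divisors.filter (fun d => d % 4 = 1) with hD
  have e1 : 6 * ∑ d ∈ D, (cp0 (3 * d : ℕ) (n / d : ℕ) : ℤ) = ∑ d ∈ D, Q d := by
    rw [Finset.mul_sum]
  have h1D : 1 ∈ D := by
    rw [hD, Finset.mem_filter, Nat.mem_divisors]
    exact ⟨⟨one_dvd n, hn0⟩, by norm_num⟩
  have e3 : (2 : ℤ) ^ (t + 2) ∣ ∑ d ∈ D.erase 1, Q d := by
    refine Finset.dvd_sum fun d hd => ?_
    rw [Finset.mem_erase, hD, Finset.mem_filter, Nat.mem_divisors] at hd
    obtain ⟨hd1, ⟨hdn, -⟩, hd4⟩ := hd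
    exact hQd d hdn hd4 (by omega)
  obtain ⟨c, hc⟩ := hsum
  obtain ⟨w, hw⟩ := e3
  rw [hc, ← Finset.add_sum_erase _ _ h1D, hw, hQone] at e1
  have e4 : (2 : ℤ) ^ (t + 1) ∣ 3 * (cc n - rr n) := by
    refine ⟨w - 3 * c, ?_⟩
    have : 2 * (3 * (cc n - rr n)) = 2 * (2 ^ (t + 1) * (w - 3 * c)) := by
      have e5 : (2 : ℤ) ^ (t + 2) = 2 * 2 ^ (t + 1) := by rw [pow_succ' 2 (t + 1)]
      rw [e5] at e1
      linear_combination e1
    linarith
  obtain ⟨z, hz⟩ := odd_dvd_cancel e4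
  exact ⟨g, z, hg, hgQ, by linarith⟩

/-- the parity theorem from the pair counts and the parity of the number of vectors -/
theorem t_PAR (hPC : S_PC) (hR : S_R) (h22 : S_REL22) (hCP : S_CP3) : S_PAR := by
  intro n hn
  obtain ⟨g, z, h1, h2, h3⟩ := ind32 hR (s_U33 hPC h22 hCP) (s_U32 hPC) n hn
  refine ⟨g + 2 * z, ?_, ?_⟩
  · rw [h3, h1, pow_succ]
    ring
  · rw [← h2, Int.odd_add]
    constructor
    · intro h
      exact h.2 (even_two_mul z)
    · intro h
      exact ⟨fun _ => even_two_mul z, fun _ => h⟩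

end Pool.Agent.N871.P15
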