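import Mathlib

/-!
# Sums of products of geometric sums of characters over all subsets

For a finite set `P` with `k` elements and finitely many functions `S ↦ c ∏_{p ∈ S} χ p` with signs
`c`, `χ p`, the sum over all subsets of the product of geometric sums of these functions is divisible
by `2 ^ k`, and modulo `2 ^ (k + 1)` it does not depend on the signs `c`.
-/

set_option autoImplicit false

namespace Pool.Agent.N871.P15

open Finset

/-- being a sign -/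
def Sg (x : ℤ) : Prop := x = 1 ∨ x = -1

theorem Sg.one : Sg 1 := Or.inl rfl

theorem Sg.neg_one : Sg (-1) := Or.inr rfl

theorem Sg.mul {x y : ℤ} (hx : Sg x) (hy : Sg y) : Sg (x * y) := by
  unfold Sg
  rcases hx with rfl | rfl <;> rcases hy with rfl | rfl <;> simp

theorem Sg.neg {x : ℤ} (hx : Sg x) : Sg (-x) := by
  unfold Sg
  rcases hx with rfl | rfl <;> simp

theorem Sg.pow {x : ℤ} (hx : Sg x) (n : ℕ) : Sg (x ^ n) := by
  induction n with
  | zero => rw [pow_zero]; exact Sg.one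
  | succ n ih => rw [pow_succ]; exact ih.mul hx

theorem Sg.sub {x y : ℤ} (hx : Sg x) (hy : Sg y) : (2 : ℤ) ∣ x - y := by
  rcases hx with rfl | rfl <;> rcases hy with rfl | rfl <;> norm_num

theorem Sg.prod {ι : Type*} (s : Finset ι) (f : ι → ℤ) (h : ∀ i ∈ s, Sg (f i)) :
    Sg (∏ i ∈ s, f i) := by
  classical
  induction s using Finset.induction_on with
  | empty => rw [Finset.prod_empty]; exact Sg.one
  | insert a t ha ih =>
    rw [Finset.prod_insert ha]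
    exact (h a (Finset.mem_insert_self _ _)).mul
      (ih fun i hi => h i (Finset.mem_insert_of_mem hi))

/-- the sum over all subsets -/
def XS (P T : Finset ℕ) (e : ℕ → ℕ) (c0 : ℤ) (c : ℕ → ℤ) (ψ : ℕ → ℤ) (χ : ℕ → ℕ → ℤ) : ℤ :=
  ∑ S ∈ P.powerset, c0 * (∏ p ∈ S, ψ p) *
    ∏ i ∈ T, ∑ j ∈ range (e i + 1), (c i * ∏ p ∈ S, χ i p) ^ j

theorem XS_insert {P T : Finset ℕ} {i : ℕ} (hi : i ∉ T) (e : ℕ → ℕ) (c0 : ℤ) (c : ℕ → ℤ)
    (ψ : ℕ → ℤ) (χ : ℕ → ℕ → ℤ) :
    XS P (insert i T) e c0 c ψ χ =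
      ∑ j ∈ range (e i + 1), XS P T e (c0 * c i ^ j) c (fun p => ψ p * χ i p ^ j) χ := by
  unfold XS
  rw [Finset.sum_comm]
  refine Finset.sum_congr rfl fun S _ => ?_
  rw [Finset.prod_insert hi, ← mul_assoc, Finset.mul_sum, Finset.sum_mul]
  refine Finset.sum_congr rfl fun j _ => ?_
  rw [Finset.prod_mul_distrib, Finset.prod_pow, mul_pow]
  ring

theorem XS_empty_val {P : Finset ℕ} (e : ℕ → ℕ) (c0 : ℤ) (c : ℕ → ℤ) (ψ : ℕ → ℤ)
    (χ : ℕ → ℕ → ℤ) : XS P ∅ e c0 c ψ χ = c0 * ∏ p ∈ P, (1 + ψ p) := by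
  unfold XS
  rw [Finset.prod_one_add, Finset.mul_sum]
  refine Finset.sum_congr rfl fun S _ => ?_
  rw [Finset.prod_empty, mul_one]

theorem prod_two {P : Finset ℕ} (ψ : ℕ → ℤ) (hψ : ∀ p ∈ P, Sg (ψ p)) :
    ∏ p ∈ P, (1 + ψ p) = 0 ∨ ∏ p ∈ P, (1 + ψ p) = 2 ^ P.card := by
  by_cases h : ∃ p ∈ P, ψ p = -1
  · obtain ⟨p, hp, h⟩ := h
    left
    exact Finset.prod_eq_zero hp (by rw [h]; norm_num)
  · right
    rw [Finset.prod_congr rfl (g := fun _ => (2 : ℤ)), Finset.prod_const]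
    intro p hp
    rcases hψ p hp with h1 | h1
    · rw [h1]; norm_num
    · exact absurd ⟨p, hp, h1⟩ h

/-- the sum is divisible by `2 ^ k` -/
theorem XS_dvd {P T : Finset ℕ} (e : ℕ → ℕ) (c : ℕ → ℤ) (χ : ℕ → ℕ → ℤ)
    (hχ : ∀ i ∈ T, ∀ p ∈ P, Sg (χ i p)) (c0 : ℤ) (ψ : ℕ → ℤ) (hψ : ∀ p ∈ P, Sg (ψ p)) :
    (2 : ℤ) ^ P.card ∣ XS P T e c0 c ψ χ := by
  induction T using Finset.induction_on generalizing c0 ψ with
  | empty =>
    rw [XS_empty_val]
    rcases prod_two ψ hψ with h | h <;> rw [h]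
    · simp
    · exact Dvd.intro_left _ rfl
  | insert i T hi ih =>
    rw [XS_insert hi]
    refine Finset.dvd_sum fun j _ => ih (fun i' hi' => hχ i' (Finset.mem_insert_of_mem hi')) _ _ ?_
    intro p hp
    exact (hψ p hp).mul ((hχ i (Finset.mem_insert_self _ _) p hp).pow j)

/-- the sum modulo `2 ^ (k + 1)` does not depend on the signs -/
theorem XS_sub {P T : Finset ℕ} (e : ℕ → ℕ) (c c' : ℕ → ℤ) (χ : ℕ → ℕ → ℤ)
    (hχ : ∀ i ∈ T, ∀ p ∈ P, Sg (χ i p)) (hc : ∀ i ∈ T, Sg (c i)) (hc' : ∀ i ∈ T, Sg (c' i))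
    (c0 c0' : ℤ) (h0 : Sg c0) (h0' : Sg c0') (ψ : ℕ → ℤ) (hψ : ∀ p ∈ P, Sg (ψ p)) :
    (2 : ℤ) ^ (P.card + 1) ∣ XS P T e c0 c ψ χ - XS P T e c0' c' ψ χ := by
  induction T using Finset.induction_on generalizing c0 c0' ψ with
  | empty =>
    rw [XS_empty_val, XS_empty_val, ← sub_mul, pow_succ']
    rcases prod_two ψ hψ with h | h <;> rw [h]
    · simp
    · exact mul_dvd_mul_right (h0.sub h0') _
  | insert i T hi ih =>
    rw [XS_insert hi, XS_insert hi, ← Finset.sum_sub_distrib]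
    refine Finset.dvd_sum fun j _ => ih (fun i' hi' => hχ i' (Finset.mem_insert_of_mem hi'))
      (fun i' hi' => hc i' (Finset.mem_insert_of_mem hi'))
      (fun i' hi' => hc' i' (Finset.mem_insert_of_mem hi')) _ _ ?_ ?_ _ ?_
    · exact h0.mul ((hc i (Finset.mem_insert_self _ _)).pow j)
    · exact h0'.mul ((hc' i (Finset.mem_insert_self _ _)).pow j)
    · intro p hp
      exact (hψ p hp).mul ((hχ i (Finset.mem_insert_self _ _) p hp).pow j)

/-- divisors of a squarefree number and sets of primes -/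
theorem sum_div {m : ℕ} (hm : Squarefree m) (f : ℕ → ℤ) :
    ∑ d ∈ m.divisors, f d = ∑ S ∈ m.primeFactors.powerset, f (∏ p ∈ S, p) := by
  have hm0 : m ≠ 0 := hm.ne_zero
  symm
  refine Finset.sum_nbij' (fun S => ∏ p ∈ S, p) (fun d => d.primeFactors) ?_ ?_ ?_ ?_ ?_
  · intro S hS
    rw [Finset.mem_powerset] at hS
    rw [Nat.mem_divisors]
    refine ⟨?_, hm0⟩
    calc ∏ p ∈ S, p ∣ ∏ p ∈ m.primeFactors, p := Finset.prod_dvd_prod_of_subset _ _ _ hS
      _ ∣ m := Nat.prod_primeFactors_dvd m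
  · intro d hd
    rw [Nat.mem_divisors] at hd
    rw [Finset.mem_powerset]
    exact Nat.primeFactors_mono hd.1 hm0
  · intro S hS
    rw [Finset.mem_powerset] at hS
    exact Nat.primeFactors_prod fun p hp => Nat.prime_of_mem_primeFactors (hS hp)
  · intro d hd
    rw [Nat.mem_divisors] at hd
    exact Nat.prod_primeFactors_of_squarefree (hm.squarefree_of_dvd hd.1)
  · intro S hS
    rfl

end Pool.Agent.N871.P15
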