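import Pool.Agent.N969.P15.Defs

/-!
# The pairs with inner product divisible by three and the Gross sums
-/

set_option autoImplicit false

namespace Pool.Agent.N871.P15

open Finset
open Pool.Agent.N969.P15

theorem ip_nonneg (v : V3) : 0 ≤ ip v v := by
  unfold ip
  nlinarith [sq_nonneg (v 0 - v 1), sq_nonneg (v 0 - v 2), sq_nonneg (v 1 - v 2), sq_nonneg (v 0),
    sq_nonneg (v 1), sq_nonneg (v 2)]

theorem sq_le_ip (v : V3) (i : Fin 3) : v i ^ 2 ≤ ip v v := by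
  unfold ip
  fin_cases i
  · change v 0 ^ 2 ≤ _
    nlinarith [sq_nonneg (2 * v 0 - v 1 - v 2), sq_nonneg (v 1 - v 2), sq_nonneg (v 1),
      sq_nonneg (v 2)]
  · change v 1 ^ 2 ≤ _
    nlinarith [sq_nonneg (3 * v 0 - v 1 - v 2), sq_nonneg (v 1 - v 2), sq_nonneg (v 1),
      sq_nonneg (v 2)]
  · change v 2 ^ 2 ≤ _
    nlinarith [sq_nonneg (3 * v 0 - v 1 - v 2), sq_nonneg (v 1 - v 2), sq_nonneg (v 1),
      sq_nonneg (v 2)]

theorem mem_vec {n : ℤ} {v : V3} : v ∈ vec n ↔ ip v v = n := by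
  unfold vec
  rw [Finset.mem_filter, Fintype.mem_piFinset]
  constructor
  · exact fun h => h.2
  · intro h
    refine ⟨fun i => ?_, h⟩
    rw [Finset.mem_Icc]
    have h1 := sq_le_ip v i
    rw [h] at h1
    have h2 := Int.le_self_sq (v i)
    have h3 := Int.le_self_sq (-v i)
    constructor <;> nlinarith

/-- Cauchy-Schwarz -/
theorem cs (v w : V3) : ip v w ^ 2 ≤ ip v v * ip w w := by
  have key : ip v v * ip w w - ip v w ^ 2 =
      10 * (((v 1 * w 2 - v 2 * w 1) + (v 2 * w 0 - v 0 * w 2)) ^ 2 +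
        ((v 1 * w 2 - v 2 * w 1) + (v 0 * w 1 - v 1 * w 0)) ^ 2 +
        ((v 2 * w 0 - v 0 * w 2) + (v 0 * w 1 - v 1 * w 0)) ^ 2 +
        2 * (v 1 * w 2 - v 2 * w 1) ^ 2) := by
    unfold ip
    ring
  have : 0 ≤ ip v v * ip w w - ip v w ^ 2 := by
    rw [key]
    positivity
  linarith

/-- the four linear forms whose kernels are orthogonal to the isotropic lines modulo three -/
def LL {R : Type*} [CommRing R] (i : Fin 4) (a b c : R) : R :=
  ![b + c, b - c - a, -b + c - a, b + c - a] i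

/-- orthogonality to an isotropic line -/
def Ot (i : Fin 4) (v : V3) : Prop := (3 : ℤ) ∣ LL i (v 0) (v 1) (v 2)

instance (i : Fin 4) (v : V3) : Decidable (Ot i v) := by
  unfold Ot; infer_instance

theorem dvd3_iff (x : ℤ) : (3 : ℤ) ∣ x ↔ (x : ZMod 3) = 0 :=
  (ZMod.intCast_zmod_eq_zero_iff_dvd x 3).symm

/-- the inner product over a ring -/
def ipR {R : Type*} [CommRing R] (a b c x y z : R) : R :=
  3 * (a * x) + 7 * (b * y) + 7 * (c * z) - (a * y + b * x) - (a * z + c * x) - 3 * (b * z + c * y)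

theorem ip_cast (v w : V3) : ((ip v w : ℤ) : ZMod 3) =
    ipR (v 0 : ZMod 3) (v 1 : ZMod 3) (v 2 : ZMod 3) (w 0 : ZMod 3) (w 1 : ZMod 3)
      (w 2 : ZMod 3) := by
  unfold ip ipR
  push_cast
  ring

theorem LL_cast (i : Fin 4) (v : V3) : ((LL i (v 0) (v 1) (v 2) : ℤ) : ZMod 3) =
    LL i (v 0 : ZMod 3) (v 1 : ZMod 3) (v 2 : ZMod 3) := by
  fin_cases i <;> simp [LL]

set_option maxRecDepth 100000 in
theorem ind_fin : ∀ a b c x y z : ZMod 3, (a ≠ 0 ∨ b ≠ 0 ∨ c ≠ 0) → ipR a b c a b c = 0 →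
    ((x ≠ 0 ∨ y ≠ 0 ∨ z ≠ 0) ∧ ipR x y z x y z = 0 ∨ ipR x y z x y z = 2) →
    (if ipR a b c x y z = 0 then (1 : ℤ) else 0) =
      ∑ i : Fin 4, (if LL i a b c = 0 then (1 : ℤ) else 0) * (if LL i x y z = 0 then 1 else 0) := by
  decide

theorem ne_zero_of {n : ℕ} (h9 : ¬ 9 ∣ n) {v : V3} (hv : ip v v = n) :
    (v 0 : ZMod 3) ≠ 0 ∨ (v 1 : ZMod 3) ≠ 0 ∨ (v 2 : ZMod 3) ≠ 0 := by
  by_contra hcon
  push Not at hcon
  obtain ⟨h0, h1, h2⟩ := hcon
  rw [← dvd3_iff] at h0 h1 h2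
  obtain ⟨a, ha⟩ := h0
  obtain ⟨b, hb⟩ := h1
  obtain ⟨c, hc⟩ := h2
  apply h9
  have : (9 : ℤ) ∣ (n : ℤ) := by
    rw [← hv]
    unfold ip
    rw [ha, hb, hc]
    exact ⟨3 * (a * a) + 7 * (b * b) + 7 * (c * c) - (a * b + b * a) - (a * c + c * a) -
      3 * (b * c + c * b), by ring⟩
  exact_mod_cast this

theorem ipR_self_zero {n : ℕ} (h3 : 3 ∣ n) {v : V3} (hv : ip v v = n) :
    ipR (v 0 : ZMod 3) (v 1 : ZMod 3) (v 2 : ZMod 3) (v 0 : ZMod 3) (v 1 : ZMod 3)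
      (v 2 : ZMod 3) = 0 := by
  rw [← ip_cast, hv, ← dvd3_iff]
  exact_mod_cast h3

theorem ipR_self_two {n : ℕ} (h3 : n % 3 = 2) {v : V3} (hv : ip v v = n) :
    ipR (v 0 : ZMod 3) (v 1 : ZMod 3) (v 2 : ZMod 3) (v 0 : ZMod 3) (v 1 : ZMod 3)
      (v 2 : ZMod 3) = 2 := by
  rw [← ip_cast, hv]
  have : (3 : ℤ) ∣ (n : ℤ) - 2 := by omega
  rw [dvd3_iff] at this
  push_cast at this ⊢
  linear_combination this

theorem ipR_self_one {n : ℕ} (h3 : n % 3 = 1) {v : V3} (hv : ip v v = n) :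
    ipR (v 0 : ZMod 3) (v 1 : ZMod 3) (v 2 : ZMod 3) (v 0 : ZMod 3) (v 1 : ZMod 3)
      (v 2 : ZMod 3) = 1 := by
  rw [← ip_cast, hv]
  have : (3 : ℤ) ∣ (n : ℤ) - 1 := by omega
  rw [dvd3_iff] at this
  push_cast at this ⊢
  linear_combination this

/-- the number of vectors orthogonal to a line -/
noncomputable def NN (i : Fin 4) (n : ℤ) : ℤ := ((vec n).filter fun v => Ot i v).card

theorem ind_ip {v w : V3} {n1 n2 : ℕ} (h1 : 3 ∣ n1) (h1' : ¬ 9 ∣ n1)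
    (h2 : (3 ∣ n2 ∧ ¬ 9 ∣ n2) ∨ n2 % 3 = 2) (hv : ip v v = n1) (hw : ip w w = n2) :
    (if (3 : ℤ) ∣ ip v w then (1 : ℤ) else 0) =
      ∑ i : Fin 4, (if Ot i v then (1 : ℤ) else 0) * (if Ot i w then 1 else 0) := by
  have key := ind_fin (v 0) (v 1) (v 2) (w 0) (w 1) (w 2) (ne_zero_of h1' hv)
    (ipR_self_zero h1 hv) (by
      rcases h2 with ⟨h2, h2'⟩ | h2
      · exact Or.inl ⟨ne_zero_of h2' hw, ipR_self_zero h2 hw⟩
      · exact Or.inr (ipR_self_two h2 hw))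
  simp only [dvd3_iff, Ot, ip_cast, LL_cast]
  exact key

theorem card_eq_sum {α : Type*} (s : Finset α) (p : α → Prop) [DecidablePred p] :
    ((s.filter p).card : ℤ) = ∑ x ∈ s, if p x then (1 : ℤ) else 0 := by
  rw [Finset.card_filter]
  push_cast
  rfl

theorem cp0_eq {n1 n2 : ℕ} (h1 : 3 ∣ n1) (h1' : ¬ 9 ∣ n1)
    (h2 : (3 ∣ n2 ∧ ¬ 9 ∣ n2) ∨ n2 % 3 = 2) :
    (cp0 n1 n2 : ℤ) = ∑ i : Fin 4, NN i n1 * NN i n2 := by
  unfold cp0
  rw [card_eq_sum, Finset.sum_product]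
  have : ∀ v ∈ vec (n1 : ℤ), ∑ w ∈ vec (n2 : ℤ),
      (if (3 : ℤ) ∣ ip v w then (1 : ℤ) else 0) =
      ∑ w ∈ vec (n2 : ℤ), ∑ i : Fin 4, (if Ot i v then (1 : ℤ) else 0) *
        (if Ot i w then 1 else 0) := by
    intro v hv
    refine Finset.sum_congr rfl fun w hw => ?_
    exact ind_ip h1 h1' h2 (mem_vec.1 hv) (mem_vec.1 hw)
  rw [Finset.sum_congr rfl this]
  have : ∀ v ∈ vec (n1 : ℤ), ∑ w ∈ vec (n2 : ℤ), ∑ i : Fin 4, (if Ot i v then (1 : ℤ) else 0) *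
        (if Ot i w then 1 else 0) = ∑ i : Fin 4, (if Ot i v then (1 : ℤ) else 0) * NN i n2 := by
    intro v _
    rw [Finset.sum_comm]
    refine Finset.sum_congr rfl fun i _ => ?_
    rw [← Finset.mul_sum, NN, card_eq_sum]
  rw [Finset.sum_congr rfl this, Finset.sum_comm]
  refine Finset.sum_congr rfl fun i _ => ?_
  rw [← Finset.sum_mul]
  congr 1
  rw [NN, card_eq_sum]

/-- the rotation of order three -/
def rho (v : V3) : V3 := ![v 0 - v 2, -v 2, v 1 - v 2]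

def rho' (v : V3) : V3 := ![v 0 - v 1, v 2 - v 1, -v 1]

theorem rho_rho' (v : V3) : rho (rho' v) = v := by
  ext i
  fin_cases i <;> simp [rho, rho']

theorem rho'_rho (v : V3) : rho' (rho v) = v := by
  ext i
  fin_cases i <;> simp [rho, rho']

theorem ip_rho (v : V3) : ip (rho v) (rho v) = ip v v := by
  simp only [ip, rho, Matrix.cons_val_zero, Matrix.cons_val_one, Matrix.cons_val]
  ring

theorem ip_rho' (v : V3) : ip (rho' v) (rho' v) = ip v v := by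
  rw [← ip_rho (rho' v), rho_rho']

theorem NN_rot {i j : Fin 4} (h : ∀ v : V3, LL i (rho v 0) (rho v 1) (rho v 2) =
    LL j (v 0) (v 1) (v 2)) (n : ℤ) : NN j n = NN i n := by
  unfold NN
  congr 1
  refine Finset.card_nbij' rho rho' ?_ ?_ ?_ ?_
  · intro v hv
    rw [Finset.mem_coe, Finset.mem_filter, mem_vec] at hv ⊢
    refine ⟨by rw [ip_rho]; exact hv.1, ?_⟩
    have := hv.2
    unfold Ot at this ⊢
    rw [h]
    exact this
  · intro v hv
    rw [Finset.mem_coe, Finset.mem_filter, mem_vec] at hv ⊢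
    refine ⟨by rw [ip_rho']; exact hv.1, ?_⟩
    have := hv.2
    unfold Ot at this ⊢
    rw [← h (rho' v), rho_rho']
    exact this
  · intro v _
    exact rho'_rho v
  · intro v _
    exact rho_rho' v

theorem NN2 (n : ℤ) : NN 2 n = NN 1 n := by
  refine NN_rot (fun v => ?_) n
  simp only [LL, rho, Matrix.cons_val_zero, Matrix.cons_val_one, Matrix.cons_val]
  ring

theorem NN3 (n : ℤ) : NN 3 n = NN 1 n := by
  rw [← NN2 n]
  refine NN_rot (fun v => ?_) n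
  simp only [LL, rho, Matrix.cons_val_zero, Matrix.cons_val_one, Matrix.cons_val]
  ring

theorem NN0 (n : ℤ) : NN 0 n = rr0 n := rfl

set_option maxRecDepth 100000 in
theorem sum_fin : ∀ x y z : ZMod 3,
    ((x ≠ 0 ∨ y ≠ 0 ∨ z ≠ 0) ∧ ipR x y z x y z = 0 →
    ∑ i : Fin 4, (if LL i x y z = 0 then (1 : ℤ) else 0) = 1) ∧
    (ipR x y z x y z = 2 → ∑ i : Fin 4, (if LL i x y z = 0 then (1 : ℤ) else 0) = 2) := by
  decide

theorem sum_NN (n : ℤ) : ∑ i : Fin 4, NN i n = NN 0 n + 3 * NN 1 n := by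
  rw [Fin.sum_univ_four, NN2, NN3]
  ring

theorem sum_ind {n : ℤ} {k : ℤ} (h : ∀ v : V3, ip v v = n →
    ∑ i : Fin 4, (if Ot i v then (1 : ℤ) else 0) = k) : NN 0 n + 3 * NN 1 n = k * rr n := by
  rw [← sum_NN]
  unfold NN rr
  simp only [card_eq_sum]
  rw [Finset.sum_comm, Finset.sum_congr rfl fun v hv => h v (mem_vec.1 hv), Finset.sum_const,
    nsmul_eq_mul, mul_comm]

theorem NN_33 {n : ℕ} (h3 : 3 ∣ n) (h9 : ¬ 9 ∣ n) : rr0 n + 3 * NN 1 n = rr n := by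
  have := sum_ind (n := n) (k := 1) (fun v hv => by
    have := (sum_fin (v 0) (v 1) (v 2)).1 ⟨ne_zero_of h9 hv, ipR_self_zero h3 hv⟩
    simp only [dvd3_iff, Ot, LL_cast]
    exact this)
  rw [NN0, one_mul] at this
  exact this

theorem NN_2 {n : ℕ} (h3 : n % 3 = 2) : rr0 n + 3 * NN 1 n = 2 * rr n := by
  have := sum_ind (n := n) (k := 2) (fun v hv => by
    have := (sum_fin (v 0) (v 1) (v 2)).2 (ipR_self_two h3 hv)
    simp only [dvd3_iff, Ot, LL_cast]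
    exact this)
  rw [NN0] at this
  exact this

theorem s_REL33 : S_REL33 := by
  intro n1 n2 h1 h1' h2 h2'
  rw [cp0_eq h1 h1' (Or.inl ⟨h2, h2'⟩), Fin.sum_univ_four, NN2, NN2, NN3, NN3, NN0, NN0]
  have e1 := NN_33 h1 h1'
  have e2 := NN_33 h2 h2'
  unfold cc
  rw [if_pos (by omega), if_pos (by omega), ← e1, ← e2]
  ring

theorem s_REL32 : S_REL32 := by
  intro n1 n2 h1 h1' h2
  rw [cp0_eq h1 h1' (Or.inr h2), Fin.sum_univ_four, NN2, NN2, NN3, NN3, NN0, NN0]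
  have e1 := NN_33 h1 h1'
  have e2 := NN_2 h2
  unfold cc
  rw [if_pos (by omega), if_neg (by omega), ← e1]
  linear_combination (6 * NN 1 n1) * e2

set_option maxRecDepth 100000 in
theorem one_fin : ∀ a b c x y z : ZMod 3, (a ≠ 0 ∨ b ≠ 0 ∨ c ≠ 0) → ipR a b c a b c = 0 →
    ipR x y z x y z = 1 → ipR a b c x y z ≠ 0 := by
  decide

theorem s_REL31 : S_REL31 := by
  intro n1 n2 h1 h1' h2
  unfold cp0
  rw [Finset.card_eq_zero, Finset.filter_eq_empty_iff]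
  rintro ⟨v, w⟩ hvw h
  rw [Finset.mem_product, mem_vec, mem_vec] at hvw
  rw [dvd3_iff, ip_cast] at h
  exact one_fin _ _ _ _ _ _ (ne_zero_of h1' hvw.1) (ipR_self_zero h1 hvw.1)
    (ipR_self_one h2 hvw.2) h

end Pool.Agent.N871.P15
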