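import Pool.Agent.N871.P15.Loc
import Pool.Agent.N871.P15.Rel

/-!
# Divisibility of the sums of local densities over the divisors
-/

set_option autoImplicit false

namespace Pool.Agent.N871.P15

open Finset
open Pool.Agent.Z700 (hh fac)
open Pool.Agent.N969.P15

theorem pow_dvd_of_two {k : ℕ} {x : ℤ} (h : (2 : ℤ) ^ (k + 1) ∣ 2 * x) : (2 : ℤ) ^ k ∣ x := by
  rw [pow_succ'] at h
  exact (mul_dvd_mul_iff_left (by norm_num : (2 : ℤ) ≠ 0)).1 h

/-- the odd divisors: `d ≡ 1` or `3 mod 4` -/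
theorem odd_dvd {m d : ℕ} (h2 : ¬ 2 ∣ m) (hd : d ∣ m) : d % 4 = 1 ∨ d % 4 = 3 := by
  have : ¬ 2 ∣ d := fun h => h2 (h.trans hd)
  omega

theorem prod_dvd {m : ℕ} {S : Finset ℕ} (hS : S ∈ m.primeFactors.powerset) :
    ∏ p ∈ S, p ∣ m := by
  rw [Finset.mem_powerset] at hS
  calc ∏ p ∈ S, p ∣ ∏ p ∈ m.primeFactors, p := Finset.prod_dvd_prod_of_subset _ _ _ hS
    _ ∣ m := Nat.prod_primeFactors_dvd m

/-- `lrest` for `3 d`, `d ≡ 1 mod 4` -/
theorem lrest_3 {q m D : ℕ} (hy : Hy q m D) (h2 : 2 ≤ D.factorization 2)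
    (h5 : Odd (D.factorization 5)) {S : Finset ℕ} (hS : S ∈ m.primeFactors.powerset)
    (h4 : (∏ p ∈ S, p) % 4 = 1) :
    lrest (3 * ∏ p ∈ S, p) D = YY q m D 3 (-1) S := by
  rw [Finset.mem_powerset] at hS
  unfold lrest YY
  rw [if_pos h5, tw3 h4 h2]
  congr 1
  refine Finset.prod_congr rfl fun l hl => ?_
  exact fac_char hy (Or.inr rfl) hl hS

theorem lrest_1 {q m D : ℕ} (hy : Hy q m D) (h2 : 2 ≤ D.factorization 2)
    (h5 : Odd (D.factorization 5)) {S : Finset ℕ} (hS : S ∈ m.primeFactors.powerset)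
    (h4 : (∏ p ∈ S, p) % 4 = 3) :
    lrest (∏ p ∈ S, p) D = YY q m D 1 1 S := by
  rw [Finset.mem_powerset] at hS
  unfold lrest YY
  have := tw1 h4 h2
  rw [one_mul] at this
  rw [if_pos h5, this]
  congr 1
  refine Finset.prod_congr rfl fun l hl => ?_
  have := fac_char hy (Or.inl rfl) hl hS
  rw [one_mul] at this
  exact this

/-- `loc` and `lrest` -/
theorem loc_eq {n1 D : ℕ} (h3 : 3 ∣ D) (hD : D ≠ 0) : loc n1 D = fac n1 D 3 * lrest n1 D := by
  unfold loc lrest
  split_ifs with h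
  · have h3' : 3 ∈ (D.primeFactors.erase 2).erase 5 := by
      simp only [Finset.mem_erase, Nat.mem_primeFactors]
      exact ⟨by norm_num, by norm_num, Nat.prime_three, h3, hD⟩
    rw [← Finset.mul_prod_erase _ _ h3']
    have e : ((D.primeFactors.erase 2).erase 5).erase 3 =
        ((D.primeFactors.erase 2).erase 3).erase 5 := Finset.erase_right_comm
    rw [e]
    ring
  · ring

theorem fac_three_even {d D : ℕ} (h : Even (D.factorization 3)) :
    fac (3 * d) D 3 = 1 + jacobiSym (-((D / 3 ^ D.factorization 3 : ℕ) : ℤ)) 3 := by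
  rw [fac, if_pos (Dvd.intro _ rfl), hh, if_pos h]

theorem fac_three_odd {d D : ℕ} (h : ¬ Even (D.factorization 3)) :
    fac (3 * d) D 3 = 1 + jacobiSym (-((D / 3 ^ D.factorization 3 : ℕ) : ℤ)) 3 * c3 d := by
  rw [fac, if_pos (Dvd.intro _ rfl), hh, if_neg h]
  congr 1
  rw [Nat.mul_div_cancel_left _ (by norm_num : 0 < 3)]
  have e4 : (-((d * (D / 3 ^ D.factorization 3) : ℕ) : ℤ)) =
      (-((D / 3 ^ D.factorization 3 : ℕ) : ℤ)) * (d : ℤ) := by
    push_cast; ring
  rw [e4, jacobiSym.mul_left, c3]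

theorem kap_sg {D : ℕ} (hD : D ≠ 0) : Sg (jacobiSym (-((D / 3 ^ D.factorization 3 : ℕ) : ℤ)) 3) := by
  have h : ¬ 3 ∣ D / 3 ^ D.factorization 3 := Nat.not_dvd_ordCompl Nat.prime_three hD
  generalize D / 3 ^ D.factorization 3 = E at h ⊢
  rw [jacobiSym.mod_left]
  have : (-(E : ℤ)) % (3 : ℕ) = 1 ∨ (-(E : ℤ)) % (3 : ℕ) = 2 := by omega
  rcases this with h | h <;> rw [h]
  · rw [jacobiSym.one_left]; exact Sg.one
  · have : jacobiSym 2 3 = -1 := by norm_num
    rw [this]; exact Sg.neg_one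

/-- the sum over the divisors `≡ 1 mod 4` with a weight -/
theorem sum_filter_1 {m : ℕ} (hm : Squarefree m) (h2 : ¬ 2 ∣ m) (F : ℕ → ℤ)
    (G : Finset ℕ → ℤ) (h : ∀ S ∈ m.primeFactors.powerset, (∏ p ∈ S, p) % 4 = 1 →
      F (∏ p ∈ S, p) = G S) :
    2 * ∑ d ∈ m.divisors.filter (fun d => d % 4 = 1), F d =
      ∑ S ∈ m.primeFactors.powerset, (1 + 1 * c4 (∏ p ∈ S, p)) * G S := by
  rw [Finset.sum_filter, sum_div hm, Finset.mul_sum]
  refine Finset.sum_congr rfl fun S hS => ?_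
  rcases odd_dvd h2 (prod_dvd hS) with h4 | h4
  · rw [if_pos h4, c4_one h4, h S hS h4]; ring
  · rw [if_neg (by omega), c4_three h4]; ring

/-- the sum over the divisors `≡ 11 mod 12` with a weight -/
theorem sum_filter_3 {m : ℕ} (hm : Squarefree m) (h2 : ¬ 2 ∣ m) (h3 : ¬ 3 ∣ m) (F : ℕ → ℤ)
    (G : Finset ℕ → ℤ) (h : ∀ S ∈ m.primeFactors.powerset, (∏ p ∈ S, p) % 4 = 3 →
      F (∏ p ∈ S, p) = G S) :
    4 * ∑ d ∈ m.divisors.filter (fun d => d % 4 = 3 ∧ d % 3 = 2), F d =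
      ∑ S ∈ m.primeFactors.powerset,
        (1 + (-1) * c4 (∏ p ∈ S, p)) * ((1 + (-1) * c3 (∏ p ∈ S, p)) * G S) := by
  rw [Finset.sum_filter, sum_div hm, Finset.mul_sum]
  refine Finset.sum_congr rfl fun S hS => ?_
  have h3' : ¬ 3 ∣ ∏ p ∈ S, p := fun h => h3 (h.trans (prod_dvd hS))
  rcases odd_dvd h2 (prod_dvd hS) with h4 | h4
  · rw [if_neg (by omega), c4_one h4]; ring
  · rw [c4_three h4, ← h S hS h4]
    have : (∏ p ∈ S, p) % 3 = 1 ∨ (∏ p ∈ S, p) % 3 = 2 := by omega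
    rcases this with h' | h'
    · have e : c3 (∏ p ∈ S, p) = 1 := by rw [c3_eq, if_neg (by omega), if_pos h']
      rw [if_neg (by omega), e]; ring
    · have e : c3 (∏ p ∈ S, p) = -1 := by rw [c3_eq, if_neg (by omega), if_neg (by omega)]
      rw [if_pos ⟨h4, h'⟩, e]; ring

theorem loc_zero_2 {n1 D : ℕ} (h : ¬ 2 ≤ D.factorization 2) : loc n1 D = 0 := by
  unfold loc tw
  have : D.factorization 2 - 1 = 0 := by omega
  rw [this, Finset.sum_range_zero, zero_mul]
  split_ifs <;> rfl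

theorem lrest_zero_2 {n1 D : ℕ} (h : ¬ 2 ≤ D.factorization 2) : lrest n1 D = 0 := by
  unfold lrest tw
  have : D.factorization 2 - 1 = 0 := by omega
  rw [this, Finset.sum_range_zero, zero_mul]
  split_ifs <;> rfl

/-- the divisibility for the mixed relation -/
theorem div32 {n D : ℕ} (hn : Squarefree n) (h2 : ¬ 2 ∣ n) (h3 : ¬ 3 ∣ n) (hn1 : 1 < n)
    (hD : D ≠ 0) (hD3 : D.factorization 3 = 1) (hD3' : D / 3 % 3 = 2) (hy : Hy 3 n D) :
    (2 : ℤ) ^ (n.primeFactors.card - 1) ∣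
      ∑ d ∈ n.divisors.filter (fun d => d % 4 = 1), loc (3 * d) D := by
  by_cases h22 : 2 ≤ D.factorization 2
  swap
  · rw [Finset.sum_eq_zero fun d _ => loc_zero_2 h22]
    exact dvd_zero _
  by_cases h5 : Odd (D.factorization 5)
  swap
  · rw [Finset.sum_eq_zero fun d _ => by rw [loc, if_neg h5]]
    exact dvd_zero _
  have hk : n.primeFactors.card - 1 + 1 = n.primeFactors.card := by
    have : 0 < n.primeFactors.card := Finset.card_pos.2 (Nat.nonempty_primeFactors.2 hn1)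
    omega
  apply pow_dvd_of_two
  rw [hk, sum_filter_1 hn h2 (fun d => loc (3 * d) D)
    (fun S => (1 + 1 * c3 (∏ p ∈ S, p)) * YY 3 n D 3 (-1) S), ← XS_43 3 n D 3 1 1 (-1)]
  · refine XS_dvd _ _ _ (fun i hi p hp => chi_sg hn h2 h3 (Or.inr rfl) hi hp) _ _
      fun p _ => Sg.one
  · intro S hS h4
    have h3D : 3 ∣ D := Nat.dvd_of_factorization_pos (by rw [hD3]; norm_num)
    rw [loc_eq h3D hD, lrest_3 hy h22 h5 hS h4, fac_three_odd (by rw [hD3]; decide), hD3, pow_one]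
    congr 2
    have : (-((D / 3 : ℕ) : ℤ)) % (3 : ℕ) = 1 := by omega
    rw [jacobiSym.mod_left, this, jacobiSym.one_left]

theorem fact_nine {E i : ℕ} (hE : E ≠ 0) (hi : i ≠ 3) :
    (9 * E).factorization i = E.factorization i := by
  rw [Nat.factorization_mul (by norm_num) hE, Finsupp.add_apply]
  have : (9 : ℕ) = 3 ^ 2 := by norm_num
  rw [this, Nat.Prime.factorization_pow Nat.prime_three, Finsupp.single_eq_of_ne hi, zero_add]

theorem fact_nine_three {E : ℕ} (hE : E ≠ 0) :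
    (9 * E).factorization 3 = E.factorization 3 + 2 := by
  rw [Nat.factorization_mul (by norm_num) hE, Finsupp.add_apply]
  have : (9 : ℕ) = 3 ^ 2 := by norm_num
  rw [this, Nat.Prime.factorization_pow Nat.prime_three, Finsupp.single_eq_same, add_comm]

theorem T0_nine {E : ℕ} (hE : E ≠ 0) : T0 (9 * E) = T0 E := by
  unfold T0
  rw [Nat.primeFactors_mul (by norm_num) hE]
  have : (9 : ℕ).primeFactors = {3} := by
    have : (9 : ℕ) = 3 ^ 2 := by norm_num
    rw [this, Nat.primeFactors_prime_pow (by norm_num) Nat.prime_three]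
  rw [this]
  ext x
  simp only [Finset.mem_erase, Finset.mem_union, Finset.mem_singleton]
  tauto

theorem ex_nine {E : ℕ} (hE : E ≠ 0) : ex (9 * E) = ex E := by
  funext i
  unfold ex
  split_ifs with h4 h3 h2
  · rfl
  · rfl
  · rw [fact_nine hE (by norm_num)]
  · rw [fact_nine hE h3]

theorem YY_nine {q m E a : ℕ} {s2 : ℤ} {S : Finset ℕ} (hE : E ≠ 0) :
    YY q m (9 * E) a s2 S = YY q m E a s2 S := by
  unfold YY
  rw [fact_nine hE (by norm_num), T0_nine hE]
  congr 1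
  refine Finset.prod_congr rfl fun l hl => ?_
  rw [fact_nine hE (mem_T0 hl).2.2.1]

/-- the divisibility for the relation of the classes `3 m` -/
theorem div33 {m E : ℕ} (hm : Squarefree m) (h2 : ¬ 2 ∣ m) (h3 : ¬ 3 ∣ m) (hE : E ≠ 0)
    (hy9 : Hy 1 m (9 * E)) (hy : Hy 1 m E) :
    ((2 : ℤ) ^ m.primeFactors.card ∣
      ∑ d ∈ m.divisors.filter (fun d => d % 4 = 1), loc (3 * d) (9 * E) -
        2 * (E.factorization 3 : ℤ) *
          ∑ d ∈ m.divisors.filter (fun d => d % 4 = 3 ∧ d % 3 = 2), lrest d E) ∧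
    (2 : ℤ) ^ m.primeFactors.card ∣
      4 * ∑ d ∈ m.divisors.filter (fun d => d % 4 = 3 ∧ d % 3 = 2), lrest d E := by
  have hE9 : 9 * E ≠ 0 := Nat.mul_ne_zero (by norm_num) hE
  by_cases h22 : 2 ≤ E.factorization 2
  swap
  · have h22' : ¬ 2 ≤ (9 * E).factorization 2 := by rw [fact_nine hE (by norm_num)]; exact h22
    rw [Finset.sum_eq_zero fun d _ => loc_zero_2 h22', Finset.sum_eq_zero fun d _ =>
      lrest_zero_2 h22]
    simp
  by_cases h5 : Odd (E.factorization 5)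
  swap
  · have h5' : ¬ Odd ((9 * E).factorization 5) := by rw [fact_nine hE (by norm_num)]; exact h5
    rw [Finset.sum_eq_zero fun d _ => by rw [loc, if_neg h5'], Finset.sum_eq_zero fun d _ => by
      rw [lrest, if_neg h5]]
    simp
  have h22' : 2 ≤ (9 * E).factorization 2 := by rw [fact_nine hE (by norm_num)]; exact h22
  have h5' : Odd ((9 * E).factorization 5) := by rw [fact_nine hE (by norm_num)]; exact h5
  set g := ∑ d ∈ m.divisors.filter (fun d => d % 4 = 3 ∧ d % 3 = 2), lrest d E with hg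
  set f := ∑ d ∈ m.divisors.filter (fun d => d % 4 = 1), loc (3 * d) (9 * E) with hf
  have g4 : 4 * g = XS m.primeFactors (insert 4 (insert 3 (insert 2 (T0 E)))) (ex E) 1
      (sg 1 (-1) (-1) 1) (fun _ => 1) (chi 1 m) := by
    rw [hg, sum_filter_3 hm h2 h3 (fun d => lrest d E) (fun S => YY 1 m E 1 1 S), XS_43]
    intro S hS h4
    exact lrest_1 hy h22 h5 hS h4
  have hg4 : (2 : ℤ) ^ m.primeFactors.card ∣ 4 * g := by
    rw [g4]
    exact XS_dvd _ _ _ (fun i hi p hp => chi_sg hm h2 h3 (Or.inl rfl) hi hp) _ _ fun p _ => Sg.one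
  refine ⟨?_, hg4⟩
  have h39 : 3 ∣ 9 * E := Dvd.dvd.mul_right (by norm_num) _
  set κ := jacobiSym (-(((9 * E) / 3 ^ (9 * E).factorization 3 : ℕ) : ℤ)) 3 with hκ
  have hκs : Sg κ := kap_sg hE9
  by_cases hev : Even (E.factorization 3)
  · have hev' : Even ((9 * E).factorization 3) := by
      rw [fact_nine_three hE]; exact hev.add (by decide)
    have e1 : f = (1 + κ) * ∑ d ∈ m.divisors.filter (fun d => d % 4 = 1),
        lrest (3 * d) (9 * E) := by
      rw [hf, Finset.mul_sum]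
      refine Finset.sum_congr rfl fun d _ => ?_
      rw [loc_eq h39 hE9, fac_three_even hev']
    have e2 : 2 * ∑ d ∈ m.divisors.filter (fun d => d % 4 = 1), lrest (3 * d) (9 * E) =
        XS m.primeFactors (insert 4 (insert 2 (T0 E))) (ex E) 1
          (sg 3 1 1 (-1)) (fun _ => 1) (chi 1 m) := by
      rw [sum_filter_1 hm h2 (fun d => lrest (3 * d) (9 * E)) (fun S => YY 1 m E 3 (-1) S), XS_4]
      intro S hS h4
      rw [← YY_nine hE]
      exact lrest_3 hy9 h22' h5' hS h4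
    have e3 : (2 : ℤ) ^ m.primeFactors.card ∣ f := by
      rw [e1]
      rcases hκs with h | h
      · have : (1 : ℤ) + κ = 2 := by rw [h]; norm_num
        rw [this, e2]
        refine XS_dvd _ _ _ (fun i hi p hp => chi_sg (D := E) hm h2 h3 (Or.inl rfl) ?_ hp) _ _
          fun p _ => Sg.one
        simp only [Finset.mem_insert] at hi ⊢
        tauto
      · have : (1 : ℤ) + κ = 0 := by rw [h]; norm_num
        rw [this, zero_mul]
        exact dvd_zero _
    obtain ⟨w, hw⟩ := hev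
    have e4 : 2 * (E.factorization 3 : ℤ) * g = w * (4 * g) := by
      rw [hw]; push_cast; ring
    rw [e4]
    exact dvd_sub e3 (Dvd.dvd.mul_left hg4 _)
  · have hev' : ¬ Even ((9 * E).factorization 3) := by
      rw [fact_nine_three hE]
      intro h
      exact hev ((Nat.even_add.1 h).2 (by decide))
    have e1 : 2 * f = XS m.primeFactors (insert 4 (insert 3 (insert 2 (T0 E)))) (ex E) 1
        (sg 3 1 κ (-1)) (fun _ => 1) (chi 1 m) := by
      rw [hf, sum_filter_1 hm h2 (fun d => loc (3 * d) (9 * E))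
        (fun S => (1 + κ * c3 (∏ p ∈ S, p)) * YY 1 m E 3 (-1) S), XS_43]
      intro S hS h4
      rw [loc_eq h39 hE9, fac_three_odd hev', ← YY_nine hE]
      congr 1
      exact lrest_3 hy9 h22' h5' hS h4
    have e2 : (2 : ℤ) ^ (m.primeFactors.card + 1) ∣ 2 * (f - 2 * g) := by
      have : 2 * (f - 2 * g) = 2 * f - 4 * g := by ring
      rw [this, e1, g4]
      exact XS_sub _ _ _ _ (fun i hi p hp => chi_sg hm h2 h3 (Or.inl rfl) hi hp)
        (fun i hi => sg_sg (Or.inr rfl) Sg.one hκs Sg.neg_one hi)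
        (fun i hi => sg_sg (Or.inl rfl) Sg.neg_one Sg.neg_one Sg.one hi) _ _ Sg.one Sg.one _
        fun p _ => Sg.one
    have e3 := pow_dvd_of_two e2
    obtain ⟨w, hw⟩ := Nat.not_even_iff_odd.1 hev
    have e4 : f - 2 * (E.factorization 3 : ℤ) * g = (f - 2 * g) - w * (4 * g) := by
      rw [hw]; push_cast; ring
    rw [e4]
    exact dvd_sub e3 (Dvd.dvd.mul_left hg4 _)

end Pool.Agent.N871.P15
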