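import Pool.Agent.N871.P15.Fin

/-!
# The parity of the Gross sums for `5 ∣ n`
-/

set_option autoImplicit false

namespace Pool.Agent.N871.P15

open Finset
open Pool.Agent.Z700 (hh fac)
open Pool.Agent.N969.P15

/-- R5: the parity of the number of vectors, `5 ∣ n` -/
def S_R5 : Prop := ∀ n : ℕ, Squarefree n → n % 4 = 3 → 5 ∣ n →
  ∃ g : ℤ, rr n = 2 ^ (n.primeFactors.card - 1) * g ∧ (Odd g ↔ Qc n)

/-- PAR5: the parity of the Gross sum, `5 ∣ n` -/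
def S_PAR5 : Prop := ∀ n : ℕ, Squarefree n → n % 4 = 3 → 5 ∣ n → n % 3 ≠ 1 →
  ∃ y : ℤ, cc n = 2 ^ (n.primeFactors.card - 1) * y ∧ (Odd y ↔ Qc n)

/-- prime to all primes other than `2, 3, 5` -/
def Cq (q : ℕ) : Prop := ∀ l : ℕ, l.Prime → l ≠ 2 → l ≠ 3 → l ≠ 5 → Nat.Coprime q l

theorem Cq.mul {a b : ℕ} (ha : Cq a) (hb : Cq b) : Cq (a * b) := fun l h1 h2 h3 h5 =>
  Nat.Coprime.mul_left (ha l h1 h2 h3 h5) (hb l h1 h2 h3 h5)

theorem Cq.three : Cq 3 := fun _ h1 _ h3 _ =>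
  (Nat.coprime_primes Nat.prime_three h1).2 (Ne.symm h3)

theorem Cq.five : Cq 5 := fun _ h1 _ _ h5 =>
  (Nat.coprime_primes Nat.prime_five h1).2 (Ne.symm h5)

theorem chi_sg' {q m D : ℕ} (hm : Squarefree m) (h2 : ¬ 2 ∣ m) (h3 : ¬ 3 ∣ m)
    (hq : Cq q) {i : ℕ} (hi : i ∈ insert 4 (insert 3 (insert 2 (T0 D)))) {p : ℕ}
    (hp : p ∈ m.primeFactors) : Sg (chi q m i p) := by
  have hpp := Nat.prime_of_mem_primeFactors hp
  have hpm := Nat.dvd_of_mem_primeFactors hp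
  have hp2 : p % 2 = 1 := by
    rcases Nat.Prime.eq_two_or_odd hpp with h | h
    · exact absurd (h ▸ hpm) h2
    · exact h
  have hp3 : ¬ 3 ∣ p := fun h => h3 (h.trans hpm)
  unfold chi
  split_ifs with h4' h3' h2'
  · exact c4_sg hp2
  · exact c3_sg hp3
  · exact c8_sg hp2
  · simp only [Finset.mem_insert, h4', h3', h2', false_or] at hi
    obtain ⟨hlp, l2, l3, l5, hlD⟩ := mem_T0 hi
    unfold ee
    split_ifs with h
    · apply js_sg
      refine Nat.Coprime.mul_left (hq i hlp l2 l3 l5) ?_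
      rw [← h]
      rw [Nat.coprime_comm, Nat.Prime.coprime_iff_not_dvd hpp]
      intro h6
      have : p * p ∣ m := by
        obtain ⟨c, hc⟩ := h6
        refine ⟨c, ?_⟩
        rw [mul_assoc, ← hc, Nat.mul_div_cancel' hpm]
      exact hpp.one_lt.ne' (Nat.isUnit_iff.1 (hm p this))
    · exact js_sg ((Nat.coprime_primes hpp hlp).2 h)

/-- divisibility for `3 d`, `d ≡ 1 mod 4` -/
theorem div_a {q m D : ℕ} (hm : Squarefree m) (h2 : ¬ 2 ∣ m) (h3 : ¬ 3 ∣ m) (hq : Cq q)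
    (hD : D ≠ 0) (h3D : 3 ∣ D) (hy : Hy q m D) :
    (2 : ℤ) ^ m.primeFactors.card ∣
      2 * ∑ d ∈ m.divisors.filter (fun d => d % 4 = 1), loc (3 * d) D := by
  by_cases h22 : 2 ≤ D.factorization 2
  swap
  · rw [Finset.sum_eq_zero fun d _ => loc_zero_2 h22, mul_zero]
    exact dvd_zero _
  by_cases h5 : Odd (D.factorization 5)
  swap
  · rw [Finset.sum_eq_zero fun d _ => by rw [loc, if_neg h5], mul_zero]
    exact dvd_zero _
  by_cases hev : Even (D.factorization 3)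
  · set κ := jacobiSym (-((D / 3 ^ D.factorization 3 : ℕ) : ℤ)) 3 with hκ
    rw [sum_filter_1 hm h2 (fun d => loc (3 * d) D)
      (fun S => (1 + κ) * YY q m D 3 (-1) S)]
    · have : ∑ S ∈ m.primeFactors.powerset, (1 + 1 * c4 (∏ p ∈ S, p)) *
          ((1 + κ) * YY q m D 3 (-1) S) = (1 + κ) * ∑ S ∈ m.primeFactors.powerset,
          (1 + 1 * c4 (∏ p ∈ S, p)) * YY q m D 3 (-1) S := by
        rw [Finset.mul_sum]
        exact Finset.sum_congr rfl fun S _ => by ring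
      rw [this, ← XS_4 q m D 3 1 1 (-1)]
      refine Dvd.dvd.mul_left (XS_dvd _ _ _ (fun i hi p hp => chi_sg' (D := D) hm h2 h3 hq ?_ hp)
        _ _ fun p _ => Sg.one) _
      simp only [Finset.mem_insert] at hi ⊢
      tauto
    · intro S hS h4
      rw [loc_eq h3D hD, lrest_3 hy h22 h5 hS h4, fac_three_even hev]
  · set κ := jacobiSym (-((D / 3 ^ D.factorization 3 : ℕ) : ℤ)) 3 with hκ
    rw [sum_filter_1 hm h2 (fun d => loc (3 * d) D)
      (fun S => (1 + κ * c3 (∏ p ∈ S, p)) * YY q m D 3 (-1) S), ← XS_43 q m D 3 1 κ (-1)]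
    · exact XS_dvd _ _ _ (fun i hi p hp => chi_sg' hm h2 h3 hq hi hp) _ _ fun p _ => Sg.one
    · intro S hS h4
      rw [loc_eq h3D hD, lrest_3 hy h22 h5 hS h4, fac_three_odd hev]

theorem sum_filter_3' {m : ℕ} (hm : Squarefree m) (h2 : ¬ 2 ∣ m) (F : ℕ → ℤ)
    (G : Finset ℕ → ℤ) (h : ∀ S ∈ m.primeFactors.powerset, (∏ p ∈ S, p) % 4 = 3 →
      F (∏ p ∈ S, p) = G S) :
    2 * ∑ d ∈ m.divisors.filter (fun d => d % 4 = 3), F d =
      ∑ S ∈ m.primeFactors.powerset, (1 + (-1) * c4 (∏ p ∈ S, p)) * G S := by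
  rw [Finset.sum_filter, sum_div hm, Finset.mul_sum]
  refine Finset.sum_congr rfl fun S hS => ?_
  rcases odd_dvd h2 (prod_dvd hS) with h4 | h4
  · rw [if_neg (by omega), c4_one h4]; ring
  · rw [if_pos h4, c4_three h4, h S hS h4]; ring

/-- divisibility for `e ≡ 3 mod 4` -/
theorem div_b {q m D : ℕ} (hm : Squarefree m) (h2 : ¬ 2 ∣ m) (h3 : ¬ 3 ∣ m) (hq : Cq q)
    (hD : D ≠ 0) (hD3 : D.factorization 3 = 1) (hy : Hy q m D) :
    (2 : ℤ) ^ m.primeFactors.card ∣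
      2 * ∑ d ∈ m.divisors.filter (fun d => d % 4 = 3), loc d D := by
  by_cases h22 : 2 ≤ D.factorization 2
  swap
  · rw [Finset.sum_eq_zero fun d _ => loc_zero_2 h22, mul_zero]
    exact dvd_zero _
  by_cases h5 : Odd (D.factorization 5)
  swap
  · rw [Finset.sum_eq_zero fun d _ => by rw [loc, if_neg h5], mul_zero]
    exact dvd_zero _
  rw [sum_filter_3' hm h2 (fun d => loc d D)
    (fun S => (1 + (-1) * c3 (∏ p ∈ S, p)) * YY q m D 1 1 S), ← XS_43 q m D 1 (-1) (-1) 1]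
  · exact XS_dvd _ _ _ (fun i hi p hp => chi_sg' hm h2 h3 hq hi hp) _ _ fun p _ => Sg.one
  · intro S hS h4
    have h3D : 3 ∣ D := Nat.dvd_of_factorization_pos (by rw [hD3]; norm_num)
    rw [loc_eq h3D hD, lrest_1 hy h22 h5 hS h4]
    congr 1
    have h3' : ¬ 3 ∣ ∏ p ∈ S, p := fun h => h3 (h.trans (prod_dvd hS))
    rw [fac, if_neg h3', hD3, Finset.sum_range_succ, Finset.sum_range_one, pow_zero, pow_one]
    congr 1
    have e : (-((∏ p ∈ S, p : ℕ) : ℤ)) = (-1) * ((∏ p ∈ S, p : ℕ) : ℤ) := by ring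
    rw [e, jacobiSym.mul_left, c3]
    congr 1
    norm_num

theorem cp_comm (n1 b n2 : ℤ) : cp n1 b n2 = cp n2 b n1 := by
  unfold cp
  refine Finset.card_nbij' Prod.swap Prod.swap ?_ ?_ ?_ ?_
  · rintro ⟨v, w⟩ h
    rw [Finset.mem_coe, Finset.mem_filter, Finset.mem_product] at h ⊢
    refine ⟨⟨h.1.2, h.1.1⟩, ?_⟩
    rw [← h.2]
    simp only [ip, Prod.swap]
    ring
  · rintro ⟨v, w⟩ h
    rw [Finset.mem_coe, Finset.mem_filter, Finset.mem_product] at h ⊢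
    refine ⟨⟨h.1.2, h.1.1⟩, ?_⟩
    rw [← h.2]
    simp only [ip, Prod.swap]
    ring
  · rintro ⟨v, w⟩ _; rfl
  · rintro ⟨v, w⟩ _; rfl

theorem cp0_comm (n1 n2 : ℤ) : cp0 n1 n2 = cp0 n2 n1 := by
  unfold cp0
  refine Finset.card_nbij' Prod.swap Prod.swap ?_ ?_ ?_ ?_
  · rintro ⟨v, w⟩ h
    rw [Finset.mem_coe, Finset.mem_filter, Finset.mem_product] at h ⊢
    refine ⟨⟨h.1.2, h.1.1⟩, ?_⟩
    have e : ip w v = ip v w := by simp only [ip]; ring
    dsimp only [Prod.swap] at h ⊢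
    rw [e]; exact h.2
  · rintro ⟨v, w⟩ h
    rw [Finset.mem_coe, Finset.mem_filter, Finset.mem_product] at h ⊢
    refine ⟨⟨h.1.2, h.1.1⟩, ?_⟩
    have e : ip w v = ip v w := by simp only [ip]; ring
    dsimp only [Prod.swap] at h ⊢
    rw [e]; exact h.2
  · rintro ⟨v, w⟩ _; rfl
  · rintro ⟨v, w⟩ _; rfl

/-- the sum over `b` and over a family of pairs of norms with the same product `N` -/
theorem tot_dvd {N k : ℕ} (A : Finset ℕ) (x y : ℕ → ℕ) (hPC : S_PC)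
    (hx : ∀ d ∈ A, Squarefree (x d) ∧ x d % 4 = 3 ∧ ¬ 5 ∣ x d)
    (hxy : ∀ d ∈ A, x d * y d = N) (h3 : 3 ∣ N) (hsq : ∀ b : ℤ, (3 * b) ^ 2 ≠ N)
    (hodd : N % 2 = 1)
    (hdiv : ∀ (b : ℤ) (D : ℕ), 0 < D → (D : ℤ) = N - (3 * b) ^ 2 →
      (2 : ℤ) ^ k ∣ 2 * ∑ d ∈ A, loc (x d) D) :
    (2 : ℤ) ^ (k + 1) ∣ ∑ d ∈ A, (cp0 (x d) (y d) : ℤ) := by
  set B : ℕ := Nat.sqrt (N / 9) + 1 with hB
  have hB1 : N < 9 * B ^ 2 := by
    have := Nat.lt_succ_sqrt' (N / 9)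
    rw [Nat.succ_eq_add_one, ← hB] at this
    omega
  have hb : ∀ b : ℤ, b ∈ Ioo (-(B : ℤ)) B → 0 < (N : ℤ) - (3 * b) ^ 2 := by
    intro b hb
    rw [Finset.mem_Ioo] at hb
    have h4 : |b| ≤ Nat.sqrt (N / 9) := by
      rw [abs_le]
      constructor <;> omega
    have h5 : b ^ 2 ≤ ((Nat.sqrt (N / 9) ^ 2 : ℕ) : ℤ) := by
      rw [← sq_abs]
      push_cast
      exact pow_le_pow_left₀ (abs_nonneg _) h4 2
    have h6 : ((Nat.sqrt (N / 9) ^ 2 : ℕ) : ℤ) ≤ ((N / 9 : ℕ) : ℤ) := by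
      exact_mod_cast Nat.sqrt_le' (N / 9)
    have h7 : (3 * b) ^ 2 ≤ N := by
      have : (3 * b) ^ 2 = 9 * b ^ 2 := by ring
      rw [this]
      omega
    have h9 : (3 * b) ^ 2 < N := lt_of_le_of_ne h7 (hsq b)
    linarith
  have key : ∀ d ∈ A, (cp0 (x d) (y d) : ℤ) =
      ∑ b ∈ Ioo (-(B : ℤ)) B, 6 * loc (x d) ((N : ℤ) - (3 * b) ^ 2).toNat := by
    intro d hd
    obtain ⟨a1, a2, a3⟩ := hx d hd
    have e2 := hxy d hd
    rw [cp0_sum (B := B) (by rw [e2]; exact hB1)]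
    refine Finset.sum_congr rfl fun b hb' => ?_
    have hpos := hb b hb'
    refine hPC (x d) (y d) (3 * b) _ a1 a2 a3 (by omega) ?_
    rw [Int.toNat_of_nonneg hpos.le]
    have : (x d : ℤ) * (y d : ℤ) = N := by exact_mod_cast e2
    rw [this]
  rw [Finset.sum_congr rfl key, Finset.sum_comm]
  have e3 : ∀ b ∈ Ioo (-(B : ℤ)) B, ∑ d ∈ A, 6 * loc (x d) ((N : ℤ) - (3 * b) ^ 2).toNat = 6 *
      (fun b : ℤ => ∑ d ∈ A, loc (x d) ((N : ℤ) - (3 * b) ^ 2).toNat) b := by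
    intro b _
    rw [Finset.mul_sum]
  rw [Finset.sum_congr rfl e3, ← Finset.mul_sum, sum_symm]
  · have hdiv' : (2 : ℤ) ^ k ∣ 2 * ∑ b ∈ Ioo (0 : ℤ) B,
        (fun b : ℤ => ∑ d ∈ A, loc (x d) ((N : ℤ) - (3 * b) ^ 2).toNat) b := by
      rw [Finset.mul_sum]
      refine Finset.dvd_sum fun b hb' => ?_
      have hb'' : b ∈ Ioo (-(B : ℤ)) B := by
        rw [Finset.mem_Ioo] at hb' ⊢
        omega
      have hpos := hb b hb''
      exact hdiv b _ (by omega) (Int.toNat_of_nonneg hpos.le)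
    obtain ⟨c, hc⟩ := hdiv'
    rw [hc, pow_succ]
    exact ⟨3 * c, by ring⟩
  · intro b
    have : (3 * -b) ^ 2 = (3 * b) ^ 2 := by ring
    rw [this]
  · refine Finset.sum_eq_zero fun d _ => loc_zero_2 (fact_two_odd ?_)
    omega

theorem Cq.ndvd {q : ℕ} (hq : Cq q) {l : ℕ} (h1 : l.Prime) (h2 : l ≠ 2) (h3 : l ≠ 3)
    (h5 : l ≠ 5) : ¬ l ∣ q := fun h =>
  h1.one_lt.ne' (Nat.Coprime.eq_one_of_dvd (hq l h1 h2 h3 h5).symm h)

theorem hy_q {q m D : ℕ} {b : ℤ} (hm : Squarefree m) (hD : D ≠ 0) (hq : Cq q)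
    (hDD : (D : ℤ) = q * m - b ^ 2) : Hy q m D :=
  hy_of (q' := q) (b := b) hm hD hDD fun _ h1 h2 h3 h5 => ⟨hq.ndvd h1 h2 h3 h5, fun _ => rfl⟩

theorem sq_ne {a : ℕ} (ha : Squarefree a) (h : 1 < a) (b : ℤ) : b ^ 2 ≠ a := by
  intro hb
  have h1 : b.natAbs * b.natAbs = a := by
    have : ((b.natAbs * b.natAbs : ℕ) : ℤ) = a := by
      push_cast
      rw [← hb, ← sq, sq_abs]
    exact_mod_cast this
  have h6 := Nat.isUnit_iff.1 (ha _ ⟨1, by rw [mul_one]; exact h1.symm⟩)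
  rw [h6] at h1
  omega

theorem sq5 {m : ℕ} (hs : Squarefree m) (h5 : ¬ 5 ∣ m) : Squarefree (5 * m) := by
  rw [Nat.squarefree_mul_iff]
  exact ⟨(Nat.Prime.coprime_iff_not_dvd Nat.prime_five).2 h5, Nat.prime_five.squarefree, hs⟩

theorem sq3 {m : ℕ} (hs : Squarefree m) (h3 : ¬ 3 ∣ m) : Squarefree (3 * m) := by
  rw [Nat.squarefree_mul_iff]
  exact ⟨(Nat.Prime.coprime_iff_not_dvd Nat.prime_three).2 h3, Nat.prime_three.squarefree, hs⟩

theorem u33_5 (hPC : S_PC) {m : ℕ} (hs : Squarefree m) (h4 : m % 4 = 1) (h3 : ¬ 3 ∣ m)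
    (h5 : ¬ 5 ∣ m) : (2 : ℤ) ^ (m.primeFactors.card + 1) ∣
      ∑ d ∈ m.divisors.filter (fun d => d % 4 = 1), (cp0 (3 * d : ℕ) (15 * (m / d) : ℕ) : ℤ) := by
  have hs5 := sq5 hs h5
  refine tot_dvd (N := 45 * m) _ (fun d => 3 * d) (fun d => 15 * (m / d)) hPC ?_ ?_ ?_ ?_ ?_ ?_
  · intro d hd
    rw [Finset.mem_filter, Nat.mem_divisors] at hd
    obtain ⟨⟨hdm, -⟩, hd4⟩ := hd
    refine ⟨sq3 (hs.squarefree_of_dvd hdm) fun h => h3 (h.trans hdm), by omega, fun h => ?_⟩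
    rcases (Nat.Prime.dvd_mul Nat.prime_five).1 h with h | h
    · omega
    · exact h5 (h.trans hdm)
  · intro d hd
    rw [Finset.mem_filter, Nat.mem_divisors] at hd
    have e1 : d * (m / d) = m := Nat.mul_div_cancel' hd.1.1
    calc 3 * d * (15 * (m / d)) = 45 * (d * (m / d)) := by ring
      _ = 45 * m := by rw [e1]
  · exact ⟨15 * m, by ring⟩
  · intro b hb
    have := sq_ne hs5 (by have := hs.ne_zero; omega) b
    apply this
    push_cast at hb ⊢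
    linarith
  · omega
  · intro b D hD hDD
    refine div_a (q := 45) hs (by omega) h3 ?_ (by omega) ?_ ?_
    · have : (45 : ℕ) = 3 * (3 * 5) := by norm_num
      rw [this]
      exact Cq.three.mul (Cq.three.mul Cq.five)
    · have : (3 : ℤ) ∣ (D : ℤ) := ⟨15 * m - 3 * b ^ 2, by rw [hDD]; push_cast; ring⟩
      exact_mod_cast this
    · refine hy_q (b := 3 * b) hs (by omega) ?_ (by rw [hDD]; push_cast; ring)
      have : (45 : ℕ) = 3 * (3 * 5) := by norm_num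
      rw [this]
      exact Cq.three.mul (Cq.three.mul Cq.five)

theorem cq15 : Cq 15 := by
  have : (15 : ℕ) = 3 * 5 := by norm_num
  rw [this]
  exact Cq.three.mul Cq.five

theorem u32_5a (hPC : S_PC) {n : ℕ} (hs : Squarefree n) (h4 : n % 4 = 3) (h3 : ¬ 3 ∣ n)
    (h5 : ¬ 5 ∣ n) : (2 : ℤ) ^ (n.primeFactors.card + 1) ∣
      ∑ d ∈ n.divisors.filter (fun d => d % 4 = 1), (cp0 (3 * d : ℕ) (5 * (n / d) : ℕ) : ℤ) := by
  refine tot_dvd (N := 15 * n) _ (fun d => 3 * d) (fun d => 5 * (n / d)) hPC ?_ ?_ ?_ ?_ ?_ ?_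
  · intro d hd
    rw [Finset.mem_filter, Nat.mem_divisors] at hd
    obtain ⟨⟨hdm, -⟩, hd4⟩ := hd
    refine ⟨sq3 (hs.squarefree_of_dvd hdm) fun h => h3 (h.trans hdm), by omega, fun h => ?_⟩
    rcases (Nat.Prime.dvd_mul Nat.prime_five).1 h with h | h
    · omega
    · exact h5 (h.trans hdm)
  · intro d hd
    rw [Finset.mem_filter, Nat.mem_divisors] at hd
    have e1 : d * (n / d) = n := Nat.mul_div_cancel' hd.1.1
    calc 3 * d * (5 * (n / d)) = 15 * (d * (n / d)) := by ring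
      _ = 15 * n := by rw [e1]
  · exact ⟨5 * n, by ring⟩
  · intro b hb
    have e : 3 * (b * b) = 5 * n := by push_cast at hb; linarith
    omega
  · omega
  · intro b D hD hDD
    refine div_a (q := 15) hs (by omega) h3 cq15 (by omega) ?_ ?_
    · have : (3 : ℤ) ∣ (D : ℤ) := ⟨5 * n - 3 * b ^ 2, by rw [hDD]; push_cast; ring⟩
      exact_mod_cast this
    · exact hy_q (b := 3 * b) hs (by omega) cq15 (by rw [hDD]; push_cast; ring)

theorem card5 {m : ℕ} (hs : Squarefree m) (h5 : ¬ 5 ∣ m) :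
    (5 * m).primeFactors.card = m.primeFactors.card + 1 := by
  rw [card_mul (sq5 hs h5), Nat.Prime.primeFactors Nat.prime_five, Finset.card_singleton, add_comm]

theorem card15 {m : ℕ} (hs : Squarefree m) (h3 : ¬ 3 ∣ m) (h5 : ¬ 5 ∣ m) :
    (15 * m).primeFactors.card = m.primeFactors.card + 2 := by
  have e : 15 * m = 3 * (5 * m) := by ring
  have h3' : ¬ 3 ∣ 5 * m := by omega
  rw [e, card_mul (sq3 (sq5 hs h5) h3'), card5 hs h5, Nat.Prime.primeFactors Nat.prime_three,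
    Finset.card_singleton]
  ring

/-- the congruence for the classes `15 m` -/
theorem ind33_5 (hPC : S_PC) (hR : S_R) (hU : S_U33) (hR5 : S_R5) : ∀ m : ℕ, Squarefree m →
    m % 4 = 1 → ¬ 3 ∣ m → ¬ 5 ∣ m →
    ∃ g z : ℤ, rr (15 * m : ℕ) = 2 ^ (m.primeFactors.card + 1) * g ∧
      cc (15 * m : ℕ) = rr (15 * m : ℕ) + 2 ^ (m.primeFactors.card + 2) * z := by
  intro m
  induction m using Nat.strong_induction_on with
  | _ m ih =>
  intro hs h4 h3 h5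
  have hm0 : m ≠ 0 := hs.ne_zero
  set k := m.primeFactors.card with hk
  have hs15 : Squarefree (15 * m) := by
    have e : 15 * m = 3 * (5 * m) := by ring
    rw [e]
    exact sq3 (sq5 hs h5) (by omega)
  obtain ⟨g, hg, -⟩ := hR5 (15 * m) hs15 (by omega) ⟨3 * m, by ring⟩
  rw [card15 hs h3 h5, ← hk] at hg
  have hk1 : k + 2 - 1 = k + 1 := by omega
  rw [hk1] at hg
  set R := rr (15 * m : ℕ) with hRd
  set C := cc (15 * m : ℕ) with hCd
  set Q : ℕ → ℤ := fun d => 12 * (cp0 (3 * d : ℕ) (15 * (m / d) : ℕ) : ℤ) with hQ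
  have hQ1 : ∀ d, d ∣ m → Q d = 3 * rr (3 * d : ℕ) * rr (15 * (m / d) : ℕ) +
      cc (3 * d : ℕ) * cc (15 * (m / d) : ℕ) := by
    intro d hd
    have h3d : ¬ 3 ∣ d := fun h => h3 (h.trans hd)
    have h3d' : ¬ 3 ∣ m / d := fun h => h3 (h.trans (Nat.div_dvd_of_dvd hd))
    exact s_REL33 (3 * d) (15 * (m / d)) (Dvd.intro _ rfl) (by omega) ⟨5 * (m / d), by ring⟩
      (by omega)
  have hQone : Q 1 = 6 * (R - C) := by
    rw [hQ1 1 (one_dvd m), Nat.div_one]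
    have : ((3 * 1 : ℕ) : ℤ) = 3 := by norm_num
    rw [this, rr_three, cc_three]
    ring
  have hQd : ∀ d, d ∣ m → d % 4 = 1 → 1 < d → (2 : ℤ) ^ (k + 3) ∣ Q d := by
    intro d hd hd4 hd1
    rw [hQ1 d hd]
    by_cases hd5 : d % 5 = 1 ∨ d % 5 = 4
    · have hmd := mod_div (q := 4) hd
      have e1 : d * (m / d) = m := Nat.mul_div_cancel' hd
      have c1 : Cls3 d := ⟨hs.squarefree_of_dvd hd, hd4, fun h => h3 (h.trans hd), hd5⟩
      obtain ⟨g1, z1, r1, s1⟩ := ind33 hR hU d c1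
      obtain ⟨g2, z2, r2, s2⟩ := ih (m / d) (Nat.div_lt_self (by omega) hd1)
        (hs.squarefree_of_dvd (Nat.div_dvd_of_dvd hd)) (by rw [hd4, h4] at hmd; omega)
        (fun h => h3 (h.trans (Nat.div_dvd_of_dvd hd)))
        (fun h => h5 (h.trans (Nat.div_dvd_of_dvd hd)))
      have hcard : k = d.primeFactors.card + (m / d).primeFactors.card := by
        rw [hk, ← card_mul (by rw [e1]; exact hs), e1]
      rw [s1, s2, r1, r2, hcard]
      refine ⟨2 * g1 * g2 + g1 * z2 + g2 * z1 + 2 * z1 * z2, ?_⟩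
      ring
    · have : (3 * d) % 5 = 1 ∨ (3 * d) % 5 = 4 := by
        have h5d : ¬ 5 ∣ d := fun h => h5 (h.trans hd)
        have : d % 5 = 2 ∨ d % 5 = 3 := by omega
        rcases this with h | h
        · left; omega
        · right; omega
      rw [rr_zero this, cc_zero this]
      simp
  have hsum := u33_5 hPC hs h4 h3 h5
  rw [← hk] at hsum
  set D := m.divisors.filter (fun d => d % 4 = 1) with hD
  have e1 : 12 * ∑ d ∈ D, (cp0 (3 * d : ℕ) (15 * (m / d) : ℕ) : ℤ) = ∑ d ∈ D, Q d := by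
    rw [Finset.mul_sum]
  have h1D : 1 ∈ D := by
    rw [hD, Finset.mem_filter, Nat.mem_divisors]
    exact ⟨⟨one_dvd m, hm0⟩, by norm_num⟩
  have e3 : (2 : ℤ) ^ (k + 3) ∣ ∑ d ∈ D.erase 1, Q d := by
    refine Finset.dvd_sum fun d hd => ?_
    rw [Finset.mem_erase, hD, Finset.mem_filter, Nat.mem_divisors] at hd
    obtain ⟨hd1, ⟨hdm, -⟩, hd4⟩ := hd
    exact hQd d hdm hd4 (by omega)
  obtain ⟨c, hc⟩ := hsum
  obtain ⟨w, hw⟩ := e3
  rw [hc, ← Finset.add_sum_erase _ _ h1D, hw, hQone] at e1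
  have e4 : (2 : ℤ) ^ (k + 2) ∣ 3 * (C - R) := by
    refine ⟨w - 3 * c, ?_⟩
    have : 2 * (3 * (C - R)) = 2 * (2 ^ (k + 2) * (w - 3 * c)) := by
      have e5 : (2 : ℤ) ^ (k + 3) = 2 * 2 ^ (k + 2) := by rw [pow_succ']
      have e6 : (2 : ℤ) ^ (k + 2) = 2 * 2 ^ (k + 1) := by rw [pow_succ' 2 (k + 1)]
      rw [e5] at e1
      rw [e6] at e1 ⊢
      linear_combination e1
    linarith
  obtain ⟨z, hz⟩ := odd_dvd_cancel e4
  exact ⟨g, z, hg, by linarith⟩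

/-- the congruence for the classes `5 n` -/
theorem ind32_5 (hPC : S_PC) (hR : S_R) (hU : S_U33) (hR5 : S_R5) : ∀ n : ℕ,
    Squarefree n → n % 4 = 3 → n % 3 = 1 → ¬ 5 ∣ n →
    ∃ g z : ℤ, rr (5 * n : ℕ) = 2 ^ n.primeFactors.card * g ∧
      cc (5 * n : ℕ) = rr (5 * n : ℕ) + 2 ^ (n.primeFactors.card + 1) * z := by
  intro n
  induction n using Nat.strong_induction_on with
  | _ n ih =>
  intro hs h4 h31 h5
  have h3 : ¬ 3 ∣ n := by omega
  have hn0 : n ≠ 0 := hs.ne_zero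
  set t := n.primeFactors.card with ht
  obtain ⟨g, hg, -⟩ := hR5 (5 * n) (sq5 hs h5) (by omega) ⟨n, rfl⟩
  rw [card5 hs h5, ← ht, Nat.add_sub_cancel] at hg
  set R := rr (5 * n : ℕ) with hRd
  set C := cc (5 * n : ℕ) with hCd
  set Q : ℕ → ℤ := fun d => 6 * (cp0 (3 * d : ℕ) (5 * (n / d) : ℕ) : ℤ) with hQ
  have hQ1 : ∀ d, d ∣ n → (5 * (n / d)) % 3 = 2 → Q d = 3 * rr (3 * d : ℕ) * rr (5 * (n / d) : ℕ) +
      cc (3 * d : ℕ) * cc (5 * (n / d) : ℕ) := by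
    intro d hd h
    have h3d : ¬ 3 ∣ d := fun h => h3 (h.trans hd)
    exact s_REL32 (3 * d) (5 * (n / d)) (Dvd.intro _ rfl) (by omega) h
  have hQone : Q 1 = 6 * (R - C) := by
    rw [hQ1 1 (one_dvd n) (by rw [Nat.div_one]; omega), Nat.div_one]
    have : ((3 * 1 : ℕ) : ℤ) = 3 := by norm_num
    rw [this, rr_three, cc_three]
    ring
  have hQd : ∀ d, d ∣ n → d % 4 = 1 → 1 < d → (2 : ℤ) ^ (t + 2) ∣ Q d := by
    intro d hd hd4 hd1
    have h3d : ¬ 3 ∣ d := fun h => h3 (h.trans hd)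
    have hnd3 := mod_div (q := 3) hd
    have hnd4 := mod_div (q := 4) hd
    have h3d' : ¬ 3 ∣ n / d := fun h => h3 (h.trans (Nat.div_dvd_of_dvd hd))
    have h5d' : ¬ 5 ∣ n / d := fun h => h5 (h.trans (Nat.div_dvd_of_dvd hd))
    by_cases h32 : (5 * (n / d)) % 3 = 2
    swap
    · have : Q d = 0 := by
        have := s_REL31 (3 * d) (5 * (n / d)) (Dvd.intro _ rfl) (by omega) (by omega)
        simp only [hQ]
        rw [this]
        rfl
      rw [this]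
      exact dvd_zero _
    rw [hQ1 d hd h32]
    by_cases hd5 : d % 5 = 1 ∨ d % 5 = 4
    · have e1 : d * (n / d) = n := Nat.mul_div_cancel' hd
      have c1 : Cls3 d := ⟨hs.squarefree_of_dvd hd, hd4, h3d, hd5⟩
      obtain ⟨g1, z1, r1, s1⟩ := ind33 hR hU d c1
      obtain ⟨g2, z2, r2, s2⟩ := ih (n / d) (Nat.div_lt_self (by omega) hd1)
        (hs.squarefree_of_dvd (Nat.div_dvd_of_dvd hd)) (by rw [hd4] at hnd4; omega) (by omega) h5d'
      have hcard : t = d.primeFactors.card + (n / d).primeFactors.card := by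
        rw [ht, ← card_mul (by rw [e1]; exact hs), e1]
      rw [s1, s2, r1, r2, hcard]
      refine ⟨2 * g1 * g2 + g1 * z2 + g2 * z1 + 2 * z1 * z2, ?_⟩
      ring
    · have : (3 * d) % 5 = 1 ∨ (3 * d) % 5 = 4 := by
        have h5d : ¬ 5 ∣ d := fun h => h5 (h.trans hd)
        have : d % 5 = 2 ∨ d % 5 = 3 := by omega
        rcases this with h | h
        · left; omega
        · right; omega
      rw [rr_zero this, cc_zero this]
      simp
  have hsum := u32_5a hPC hs h4 h3 h5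
  rw [← ht] at hsum
  set D := n.divisors.filter (fun d => d % 4 = 1) with hD
  have e1 : 6 * ∑ d ∈ D, (cp0 (3 * d : ℕ) (5 * (n / d) : ℕ) : ℤ) = ∑ d ∈ D, Q d := by
    rw [Finset.mul_sum]
  have h1D : 1 ∈ D := by
    rw [hD, Finset.mem_filter, Nat.mem_divisors]
    exact ⟨⟨one_dvd n, hn0⟩, by norm_num⟩
  have e3 : (2 : ℤ) ^ (t + 2) ∣ ∑ d ∈ D.erase 1, Q d := by
    refine Finset.dvd_sum fun d hd => ?_
    rw [Finset.mem_erase, hD, Finset.mem_filter, Nat.mem_divisors] at hd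
    obtain ⟨hd1, ⟨hdn, -⟩, hd4⟩ := hd
    exact hQd d hdn hd4 (by omega)
  obtain ⟨c, hc⟩ := hsum
  obtain ⟨w, hw⟩ := e3
  rw [hc, ← Finset.add_sum_erase _ _ h1D, hw, hQone] at e1
  have e4 : (2 : ℤ) ^ (t + 1) ∣ 3 * (C - R) := by
    refine ⟨w - 3 * c, ?_⟩
    have : 2 * (3 * (C - R)) = 2 * (2 ^ (t + 1) * (w - 3 * c)) := by
      have e5 : (2 : ℤ) ^ (t + 2) = 2 * 2 ^ (t + 1) := by rw [pow_succ' 2 (t + 1)]
      rw [e5] at e1
      linear_combination e1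
    linarith
  obtain ⟨z, hz⟩ := odd_dvd_cancel e4
  exact ⟨g, z, hg, by linarith⟩

/-- the parity theorem for `5 ∣ n` -/
theorem t_PAR5 (hPC : S_PC) (hR : S_R) (hU : S_U33) (hR5 : S_R5) : S_PAR5 := by
  intro n hs h4 h5 h31
  obtain ⟨g, hg, hgQ⟩ := hR5 n hs h4 h5
  have key : ∃ z : ℤ, cc n = rr n + 2 ^ (n.primeFactors.card - 1 + 1) * z := by
    obtain ⟨m, rfl⟩ := h5
    have hm5 : ¬ 5 ∣ m := by
      rintro ⟨c, rfl⟩
      have := Nat.isUnit_iff.1 (hs 5 ⟨c, by ring⟩)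
      omega
    have hms : Squarefree m := hs.squarefree_of_dvd (Dvd.intro_left _ rfl)
    by_cases h3 : 3 ∣ m
    · obtain ⟨a, rfl⟩ := h3
      have ha3 : ¬ 3 ∣ a := by
        rintro ⟨c, rfl⟩
        have := Nat.isUnit_iff.1 (hms 3 ⟨c, by ring⟩)
        omega
      have has : Squarefree a := hms.squarefree_of_dvd (Dvd.intro_left _ rfl)
      have ha5 : ¬ 5 ∣ a := fun h => hm5 (h.mul_left 3)
      obtain ⟨g', z, -, h⟩ := ind33_5 hPC hR hU hR5 a has (by omega) ha3 ha5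
      have e : 5 * (3 * a) = 15 * a := by ring
      rw [e, card15 has ha3 ha5, h]
      exact ⟨z, rfl⟩
    · obtain ⟨g', z, -, h⟩ := ind32_5 hPC hR hU hR5 m hms (by omega) (by omega) hm5
      rw [card5 hms hm5, h]
      exact ⟨z, rfl⟩
  obtain ⟨z, hz⟩ := key
  refine ⟨g + 2 * z, ?_, ?_⟩
  · rw [hz, hg, pow_succ]
    ring
  · rw [← hgQ, Int.odd_add]
    exact ⟨fun h => h.2 (even_two_mul z), fun h => ⟨fun _ => even_two_mul z, fun _ => h⟩⟩

/-- the parity theorem for `5 ∣ n` from the parity of the number of vectors -/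
theorem s_PAR5 (hR5 : S_R5) : S_PAR5 :=
  t_PAR5 Pool.Agent.N972.PC15.t_PC Pool.Agent.N877.P15.t_R s_U33' hR5

end Pool.Agent.N871.P15
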