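import Pool.Agent.N969.P15.Defs
import Pool.Agent.N871.P15.Chr

/-!
# The local densities as characters of the set of primes
-/

set_option autoImplicit false

namespace Pool.Agent.N871.P15

open Finset
open Pool.Agent.Z700 (hh fac)
open Pool.Agent.N969.P15

/-- the character at `l` -/
def ee (q m l p : ℕ) : ℤ :=
  if p = l then jacobiSym ((q * (m / l) : ℕ) : ℤ) l else jacobiSym (p : ℤ) l

/-- the primes dividing `D` other than `2, 3, 5` -/
def T0 (D : ℕ) : Finset ℕ := ((D.primeFactors.erase 2).erase 3).erase 5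

theorem mem_T0 {D l : ℕ} (h : l ∈ T0 D) : l.Prime ∧ l ≠ 2 ∧ l ≠ 3 ∧ l ≠ 5 ∧ l ∣ D := by
  unfold T0 at h
  simp only [Finset.mem_erase, Nat.mem_primeFactors] at h
  exact ⟨h.2.2.2.1, h.2.2.1, h.2.1, h.1, h.2.2.2.2.1⟩

/-- the behaviour of `D` at the common primes with `m` -/
def Hy (q m D : ℕ) : Prop := ∀ l : ℕ, l.Prime → l ≠ 2 → l ≠ 3 → l ≠ 5 → l ∣ D → l ∣ m →
  D.factorization l = 1 ∧ jacobiSym ((D / l : ℕ) : ℤ) l = jacobiSym ((q * (m / l) : ℕ) : ℤ) l

theorem js_prod (S : Finset ℕ) (l : ℕ) :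
    jacobiSym ((∏ p ∈ S, p : ℕ) : ℤ) l = ∏ p ∈ S, jacobiSym (p : ℤ) l := by
  classical
  induction S using Finset.induction_on with
  | empty => simp
  | insert a t ha ih =>
    rw [Finset.prod_insert ha, Finset.prod_insert ha, Nat.cast_mul, jacobiSym.mul_left, ih]

theorem js_sg {a l : ℕ} (h : Nat.Coprime a l) : Sg (jacobiSym (a : ℤ) l) := by
  unfold Sg
  apply jacobiSym.eq_one_or_neg_one
  simpa [Int.gcd] using h

theorem prime_not_dvd_prod {P : Finset ℕ} (hP : ∀ p ∈ P, p.Prime) {S : Finset ℕ} (hS : S ⊆ P)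
    {l : ℕ} (hl : l.Prime) (h : l ∉ S) : ¬ l ∣ ∏ p ∈ S, p := by
  intro h1
  obtain ⟨p, hp, h2⟩ := (Prime.dvd_finsetProd_iff hl.prime _).1 h1
  have := (Nat.prime_dvd_prime_iff_eq hl (hP p (hS hp))).1 h2
  exact h (this ▸ hp)

/-- the local factor as a geometric sum of a character -/
theorem fac_char {q m D a l : ℕ} (hy : Hy q m D) (ha : a = 1 ∨ a = 3) (hl : l ∈ T0 D)
    {S : Finset ℕ} (hS : S ⊆ m.primeFactors) :
    fac (a * ∏ p ∈ S, p) D l = ∑ j ∈ range (D.factorization l + 1),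
      (jacobiSym (-(a : ℤ)) l * ∏ p ∈ S, ee q m l p) ^ j := by
  obtain ⟨hlp, h2, h3, h5, hlD⟩ := mem_T0 hl
  have hla : ¬ l ∣ a := by
    rcases ha with rfl | rfl
    · exact fun h => hlp.one_lt.ne' (Nat.dvd_one.1 h)
    · exact fun h => h3 ((Nat.prime_dvd_prime_iff_eq hlp Nat.prime_three).1 h)
  by_cases hd : l ∈ S
  · have hlm : l ∣ m := Nat.dvd_of_mem_primeFactors (hS hd)
    obtain ⟨h6, h7⟩ := hy l hlp h2 h3 h5 hlD hlm
    have e1 : a * ∏ p ∈ S, p = l * (a * ∏ p ∈ S.erase l, p) := by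
      rw [← Finset.mul_prod_erase S (fun p => p) hd]; ring
    have hdiv : l ∣ a * ∏ p ∈ S, p := by rw [e1]; exact Dvd.intro _ rfl
    rw [fac, if_pos hdiv, h6, hh, h6, if_neg (by decide)]
    have e2 : (a * ∏ p ∈ S, p) / l = a * ∏ p ∈ S.erase l, p := by
      rw [e1, Nat.mul_div_cancel_left _ hlp.pos]
    rw [e2, pow_one, Finset.sum_range_succ, Finset.sum_range_one, pow_zero, pow_one]
    congr 1
    have e4 : (-((a * (∏ p ∈ S.erase l, p) * (D / l) : ℕ) : ℤ)) =
        (-(a : ℤ)) * ((∏ p ∈ S.erase l, p : ℕ) : ℤ) * ((D / l : ℕ) : ℤ) := by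
      push_cast; ring
    rw [e4, jacobiSym.mul_left, jacobiSym.mul_left, h7, js_prod,
      ← Finset.mul_prod_erase S (fun p => ee q m l p) hd]
    have e5 : ee q m l l = jacobiSym ((q * (m / l) : ℕ) : ℤ) l := by rw [ee, if_pos rfl]
    have e6 : ∏ p ∈ S.erase l, ee q m l p = ∏ p ∈ S.erase l, jacobiSym (p : ℤ) l := by
      refine Finset.prod_congr rfl fun p hp => ?_
      rw [ee, if_neg]
      rintro rfl
      exact (Finset.mem_erase.1 hp).1 rfl
    rw [e5, e6]
    ring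
  · have hdiv : ¬ l ∣ a * ∏ p ∈ S, p := by
      intro h
      rcases (Nat.Prime.dvd_mul hlp).1 h with h | h
      · exact hla h
      · exact prime_not_dvd_prod (fun p hp => Nat.prime_of_mem_primeFactors hp) hS hlp hd h
    rw [fac, if_neg hdiv]
    refine Finset.sum_congr rfl fun j _ => ?_
    congr 1
    have e4 : (-((a * ∏ p ∈ S, p : ℕ) : ℤ)) = (-(a : ℤ)) * ((∏ p ∈ S, p : ℕ) : ℤ) := by
      push_cast; ring
    rw [e4, jacobiSym.mul_left, js_prod]
    congr 1
    refine Finset.prod_congr rfl fun p hp => ?_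
    rw [ee, if_neg]
    rintro rfl
    exact hd hp

/-- the characters modulo `4`, `8` and `3` -/
def c4 (p : ℕ) : ℤ := ZMod.χ₄ (p : ZMod 4)

def c8 (p : ℕ) : ℤ := ZMod.χ₈ (p : ZMod 8)

def c3 (p : ℕ) : ℤ := jacobiSym (p : ℤ) 3

theorem c4_prod (S : Finset ℕ) : c4 (∏ p ∈ S, p) = ∏ p ∈ S, c4 p := by
  unfold c4
  rw [Nat.cast_prod, map_prod]

theorem c8_prod (S : Finset ℕ) : c8 (∏ p ∈ S, p) = ∏ p ∈ S, c8 p := by
  unfold c8
  rw [Nat.cast_prod, map_prod]

theorem c3_prod (S : Finset ℕ) : c3 (∏ p ∈ S, p) = ∏ p ∈ S, c3 p := js_prod S 3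

theorem c4_one {d : ℕ} (h : d % 4 = 1) : c4 d = 1 := ZMod.χ₄_nat_one_mod_four h

theorem c4_three {d : ℕ} (h : d % 4 = 3) : c4 d = -1 := ZMod.χ₄_nat_three_mod_four h

theorem c8_eq {d : ℕ} (h : d % 2 = 1) : c8 d = if d % 8 = 1 ∨ d % 8 = 7 then 1 else -1 := by
  unfold c8
  rw [ZMod.χ₈_nat_eq_if_mod_eight]
  simp [show ¬ d % 2 = 0 by omega]

theorem c3_eq (d : ℕ) : c3 d = if d % 3 = 0 then 0 else if d % 3 = 1 then 1 else -1 := by
  unfold c3
  rw [jacobiSym.mod_left]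
  have h : (d : ℤ) % (3 : ℕ) = (d % 3 : ℕ) := by push_cast; rfl
  rw [h]
  have : d % 3 = 0 ∨ d % 3 = 1 ∨ d % 3 = 2 := by omega
  rcases this with h | h | h <;> rw [h]
  · norm_num
  · norm_num
  · norm_num

theorem c4_sg {d : ℕ} (h : d % 2 = 1) : Sg (c4 d) := by
  have : d % 4 = 1 ∨ d % 4 = 3 := by omega
  rcases this with h | h
  · rw [c4_one h]; exact Sg.one
  · rw [c4_three h]; exact Sg.neg_one

theorem c8_sg {d : ℕ} (h : d % 2 = 1) : Sg (c8 d) := by
  rw [c8_eq h]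
  split_ifs
  · exact Sg.one
  · exact Sg.neg_one

theorem c3_sg {d : ℕ} (h : ¬ 3 ∣ d) : Sg (c3 d) := by
  rw [c3_eq, if_neg (by omega)]
  split_ifs
  · exact Sg.one
  · exact Sg.neg_one

/-- the factor at `2` for `3 d`, `d ≡ 1 mod 4` -/
theorem tw3 {d D : ℕ} (hd : d % 4 = 1) (hD : 2 ≤ D.factorization 2) :
    tw (3 * d) D = ∑ j ∈ range (D.factorization 2 - 2 + 1), (-1 * c8 d) ^ j := by
  unfold tw
  have e1 : D.factorization 2 - 1 = D.factorization 2 - 2 + 1 := by omega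
  rw [e1]
  refine Finset.sum_congr rfl fun j _ => ?_
  congr 1
  rw [c8_eq (by omega)]
  have : d % 8 = 1 ∨ d % 8 = 5 := by omega
  rcases this with h | h
  · rw [if_neg (by omega), if_pos (Or.inl h)]; norm_num
  · rw [if_pos (by omega), if_neg (by omega)]; norm_num

/-- the factor at `2` for `d ≡ 3 mod 4` -/
theorem tw1 {d D : ℕ} (hd : d % 4 = 3) (hD : 2 ≤ D.factorization 2) :
    tw (1 * d) D = ∑ j ∈ range (D.factorization 2 - 2 + 1), (1 * c8 d) ^ j := by
  unfold tw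
  have e1 : D.factorization 2 - 1 = D.factorization 2 - 2 + 1 := by omega
  rw [e1]
  refine Finset.sum_congr rfl fun j _ => ?_
  congr 1
  rw [c8_eq (by omega), one_mul]
  have : d % 8 = 3 ∨ d % 8 = 7 := by omega
  rcases this with h | h
  · rw [if_neg (by omega), if_neg (by omega), one_mul]
  · rw [if_pos (by omega), if_pos (Or.inr h), one_mul]

/-- the characters in one family -/
def chi (q m i p : ℕ) : ℤ :=
  if i = 4 then c4 p else if i = 3 then c3 p else if i = 2 then c8 p else ee q m i p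

/-- the exponents in one family -/
def ex (D i : ℕ) : ℕ :=
  if i = 4 then 1 else if i = 3 then 1 else if i = 2 then D.factorization 2 - 2
    else D.factorization i

/-- the signs in one family -/
def sg (a : ℕ) (s4 s3 s2 : ℤ) (i : ℕ) : ℤ :=
  if i = 4 then s4 else if i = 3 then s3 else if i = 2 then s2 else jacobiSym (-(a : ℤ)) i

/-- the product over `T0` and `2` -/
def YY (q m D a : ℕ) (s2 : ℤ) (S : Finset ℕ) : ℤ :=
  (∑ j ∈ range (D.factorization 2 - 2 + 1), (s2 * c8 (∏ p ∈ S, p)) ^ j) *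
    ∏ l ∈ T0 D, ∑ j ∈ range (D.factorization l + 1),
      (jacobiSym (-(a : ℤ)) l * ∏ p ∈ S, ee q m l p) ^ j

theorem not_mem_T0 {D i : ℕ} (h : i = 2 ∨ i = 3 ∨ i = 4) : i ∉ T0 D := by
  intro h1
  obtain ⟨h2, h3, h4, h5, h6⟩ := mem_T0 h1
  rcases h with rfl | rfl | rfl
  · exact h3 rfl
  · exact h4 rfl
  · exact absurd h2 (by norm_num)

theorem prod_T0 (q m D a : ℕ) (s4 s3 s2 : ℤ) (S : Finset ℕ) :
    ∏ i ∈ insert 2 (T0 D), ∑ j ∈ range (ex D i + 1),
      (sg a s4 s3 s2 i * ∏ p ∈ S, chi q m i p) ^ j = YY q m D a s2 S := by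
  rw [Finset.prod_insert (not_mem_T0 (Or.inl rfl)), YY]
  congr 1
  · rw [c8_prod]
    rfl
  · refine Finset.prod_congr rfl fun l hl => ?_
    have h2 : l ≠ 2 := (mem_T0 hl).2.1
    have h3 : l ≠ 3 := (mem_T0 hl).2.2.1
    have h4 : l ≠ 4 := fun h => not_mem_T0 (Or.inr (Or.inr h)) hl
    rw [ex, if_neg h4, if_neg h3, if_neg h2, sg, if_neg h4, if_neg h3, if_neg h2]
    refine Finset.sum_congr rfl fun j _ => ?_
    congr 2
    refine Finset.prod_congr rfl fun p _ => ?_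
    rw [chi, if_neg h4, if_neg h3, if_neg h2]

/-- the sum with the characters modulo `4` and `3` -/
theorem XS_43 (q m D a : ℕ) (s4 s3 s2 : ℤ) :
    XS m.primeFactors (insert 4 (insert 3 (insert 2 (T0 D)))) (ex D) 1 (sg a s4 s3 s2)
      (fun _ => 1) (chi q m) = ∑ S ∈ m.primeFactors.powerset,
        (1 + s4 * c4 (∏ p ∈ S, p)) * ((1 + s3 * c3 (∏ p ∈ S, p)) * YY q m D a s2 S) := by
  unfold XS
  refine Finset.sum_congr rfl fun S _ => ?_
  rw [Finset.prod_const_one, mul_one, one_mul, Finset.prod_insert, Finset.prod_insert, prod_T0]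
  · congr 1
    · have : ex D 4 = 1 := rfl
      rw [this, Finset.sum_range_succ, Finset.sum_range_one, pow_zero, pow_one, c4_prod]
      rfl
    · congr 1
      have : ex D 3 = 1 := rfl
      rw [this, Finset.sum_range_succ, Finset.sum_range_one, pow_zero, pow_one, c3_prod]
      rfl
  · rw [Finset.mem_insert, not_or]
    exact ⟨by norm_num, not_mem_T0 (Or.inr (Or.inl rfl))⟩
  · rw [Finset.mem_insert, Finset.mem_insert, not_or, not_or]
    exact ⟨by norm_num, by norm_num, not_mem_T0 (Or.inr (Or.inr rfl))⟩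

/-- the sum with the character modulo `4` -/
theorem XS_4 (q m D a : ℕ) (s4 s3 s2 : ℤ) :
    XS m.primeFactors (insert 4 (insert 2 (T0 D))) (ex D) 1 (sg a s4 s3 s2)
      (fun _ => 1) (chi q m) = ∑ S ∈ m.primeFactors.powerset,
        (1 + s4 * c4 (∏ p ∈ S, p)) * YY q m D a s2 S := by
  unfold XS
  refine Finset.sum_congr rfl fun S _ => ?_
  rw [Finset.prod_const_one, mul_one, one_mul, Finset.prod_insert, prod_T0]
  · congr 1
    have : ex D 4 = 1 := rfl
    rw [this, Finset.sum_range_succ, Finset.sum_range_one, pow_zero, pow_one, c4_prod]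
    rfl
  · rw [Finset.mem_insert, not_or]
    exact ⟨by norm_num, not_mem_T0 (Or.inr (Or.inr rfl))⟩

/-- all characters are signs -/
theorem chi_sg {q m D : ℕ} (hm : Squarefree m) (h2 : ¬ 2 ∣ m) (h3 : ¬ 3 ∣ m)
    (hq : q = 1 ∨ q = 3) {i : ℕ} (hi : i ∈ insert 4 (insert 3 (insert 2 (T0 D)))) {p : ℕ}
    (hp : p ∈ m.primeFactors) : Sg (chi q m i p) := by
  have hpp := Nat.prime_of_mem_primeFactors hp
  have hpm := Nat.dvd_of_mem_primeFactors hp
  have hp2 : p % 2 = 1 := by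
    rcases Nat.Prime.eq_two_or_odd hpp with h | h
    · exact absurd (h ▸ hpm) h2
    · exact h
  have hp3 : ¬ 3 ∣ p := fun h => h3 (h.trans hpm)
  unfold chi
  split_ifs with h4' h3' h2'
  · exact c4_sg hp2
  · exact c3_sg hp3
  · exact c8_sg hp2
  · simp only [Finset.mem_insert, h4', h3', h2', false_or] at hi
    obtain ⟨hlp, l2, l3, l5, hlD⟩ := mem_T0 hi
    unfold ee
    split_ifs with h
    · apply js_sg
      have hql : Nat.Coprime q i := by
        rcases hq with rfl | rfl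
        · exact Nat.coprime_one_left i
        · exact (Nat.coprime_primes Nat.prime_three hlp).2 (Ne.symm l3)
      refine Nat.Coprime.mul_left hql ?_
      rw [← h]
      rw [Nat.coprime_comm, Nat.Prime.coprime_iff_not_dvd hpp]
      intro h6
      have : p * p ∣ m := by
        obtain ⟨c, hc⟩ := h6
        refine ⟨c, ?_⟩
        rw [mul_assoc, ← hc, Nat.mul_div_cancel' hpm]
      exact hpp.one_lt.ne' (Nat.isUnit_iff.1 (hm p this))
    · exact js_sg ((Nat.coprime_primes hpp hlp).2 h)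

theorem sg_sg {a D : ℕ} (ha : a = 1 ∨ a = 3) {s4 s3 s2 : ℤ} (h4 : Sg s4) (h3 : Sg s3) (h2 : Sg s2)
    {i : ℕ} (hi : i ∈ insert 4 (insert 3 (insert 2 (T0 D)))) : Sg (sg a s4 s3 s2 i) := by
  unfold sg
  split_ifs with h4' h3' h2'
  · exact h4
  · exact h3
  · exact h2
  · simp only [Finset.mem_insert, h4', h3', h2', false_or] at hi
    obtain ⟨hlp, l2, l3, l5, hlD⟩ := mem_T0 hi
    unfold Sg
    apply jacobiSym.eq_one_or_neg_one
    have hal : Nat.Coprime a i := by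
      rcases ha with rfl | rfl
      · exact Nat.coprime_one_left i
      · exact (Nat.coprime_primes Nat.prime_three hlp).2 (Ne.symm l3)
    simpa [Int.gcd] using hal

end Pool.Agent.N871.P15
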