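import Pool.Agent.N871.P15.Div

/-!
# The divisibility statements `S_U32` and `S_U33`
-/

set_option autoImplicit false

namespace Pool.Agent.N871.P15

open Finset
open Pool.Agent.Z700 (hh fac)
open Pool.Agent.N969.P15

theorem hy_of {q q' m D : ℕ} {b : ℤ} (hm : Squarefree m) (hD : D ≠ 0)
    (hDD : (D : ℤ) = q' * m - b ^ 2)
    (hq : ∀ l : ℕ, l.Prime → l ≠ 2 → l ≠ 3 → l ≠ 5 → ¬ l ∣ q' ∧ ∀ x : ℕ,
      jacobiSym ((q' * x : ℕ) : ℤ) l = jacobiSym ((q * x : ℕ) : ℤ) l) : Hy q m D := by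
  intro l hl l2 l3 l5 hlD hlm
  obtain ⟨hq1, hq2⟩ := hq l hl l2 l3 l5
  obtain ⟨m', rfl⟩ := hlm
  have hm' : ¬ l ∣ m' := by
    rintro ⟨c, rfl⟩
    exact hl.one_lt.ne' (Nat.isUnit_iff.1 (hm l ⟨c, by ring⟩))
  obtain ⟨D', rfl⟩ := hlD
  have hlb : (l : ℤ) ∣ b := by
    have : (l : ℤ) ∣ b ^ 2 := ⟨q' * m' - D', by push_cast at hDD; linarith⟩
    exact (Nat.prime_iff_prime_int.1 hl).dvd_of_dvd_pow this
  obtain ⟨c, rfl⟩ := hlb
  have hl0 : (l : ℤ) ≠ 0 := by exact_mod_cast hl.ne_zero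
  have e2 : (D' : ℤ) = q' * m' - l * c ^ 2 := by
    push_cast at hDD
    have : (l : ℤ) * D' = l * (q' * m' - l * c ^ 2) := by linarith
    exact mul_left_cancel₀ hl0 this
  have hn : ¬ l ∣ D' := by
    intro h
    have h1 : (l : ℤ) ∣ ((q' * m' : ℕ) : ℤ) := by
      have : ((q' * m' : ℕ) : ℤ) = D' + l * c ^ 2 := by push_cast; rw [e2]; ring
      rw [this]
      exact dvd_add (by exact_mod_cast h) (Dvd.intro _ rfl)
    have h2 : l ∣ q' * m' := by exact_mod_cast h1
    rcases (Nat.Prime.dvd_mul hl).1 h2 with h | h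
    · exact hq1 h
    · exact hm' h
  have hD' : D' ≠ 0 := by
    rintro rfl
    simp at hD
  rw [Nat.mul_div_cancel_left _ hl.pos, Nat.mul_div_cancel_left _ hl.pos]
  refine ⟨?_, ?_⟩
  · rw [Nat.factorization_mul hl.ne_zero hD', Finsupp.add_apply, hl.factorization_self,
      Nat.factorization_eq_zero_of_not_dvd hn]
  · rw [← hq2]
    apply jacobiSym.mod_left'
    rw [e2, Int.sub_mul_emod_self_left]
    push_cast
    rfl

theorem hy_one {m D : ℕ} {b : ℤ} (hm : Squarefree m) (hD : D ≠ 0)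
    (hDD : (D : ℤ) = m - b ^ 2) : Hy 1 m D := by
  refine hy_of (q' := 1) (b := b) hm hD (by rw [hDD]; push_cast; ring) ?_
  intro l hl _ _ _
  exact ⟨fun h => hl.one_lt.ne' (Nat.dvd_one.1 h), fun x => rfl⟩

theorem not_dvd_three {l : ℕ} (hl : l.Prime) (h3 : l ≠ 3) : ¬ l ∣ 3 := fun h =>
  h3 ((Nat.prime_dvd_prime_iff_eq hl Nat.prime_three).1 h)

theorem hy_three {m D : ℕ} {b : ℤ} (hm : Squarefree m) (hD : D ≠ 0)
    (hDD : (D : ℤ) = 3 * m - b ^ 2) : Hy 3 m D := by
  refine hy_of (q' := 3) (b := b) hm hD (by rw [hDD]; push_cast; ring) ?_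
  intro l hl _ h3 _
  exact ⟨not_dvd_three hl h3, fun x => rfl⟩

theorem hy_nine {m D : ℕ} {b : ℤ} (hm : Squarefree m) (hD : D ≠ 0)
    (hDD : (D : ℤ) = 9 * m - b ^ 2) : Hy 1 m D := by
  refine hy_of (q' := 9) (b := b) hm hD (by rw [hDD]; push_cast; ring) ?_
  intro l hl _ h3 _
  refine ⟨fun h => ?_, fun x => ?_⟩
  · have e : (9 : ℕ) = 3 * 3 := by norm_num
    rw [e] at h
    rcases (Nat.Prime.dvd_mul hl).1 h with h | h <;> exact not_dvd_three hl h3 h
  · have e : ((9 * x : ℕ) : ℤ) = (3 : ℤ) ^ 2 * ((1 * x : ℕ) : ℤ) := by push_cast; ring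
    rw [e, jacobiSym.mul_left, jacobiSym.sq_one', one_mul]
    rw [Int.gcd_comm]
    have : Nat.Coprime l 3 := (Nat.coprime_primes hl Nat.prime_three).2 h3
    simpa [Int.gcd] using this

/-- the number of pairs with inner product divisible by three as a sum -/
theorem cp0_sum {n1 n2 B : ℕ} (h : n1 * n2 < 9 * B ^ 2) :
    (cp0 n1 n2 : ℤ) = ∑ b ∈ Ioo (-(B : ℤ)) B, (cp n1 (3 * b) n2 : ℤ) := by
  unfold cp0
  rw [Finset.card_eq_sum_card_fiberwise (f := fun q : V3 × V3 => ip q.1 q.2 / 3)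
    (t := Ioo (-(B : ℤ)) B)]
  · push_cast
    refine Finset.sum_congr rfl fun b _ => ?_
    unfold cp
    rw [Finset.filter_filter]
    congr 2
    refine Finset.filter_congr fun q _ => ?_
    constructor
    · rintro ⟨h1, h2⟩; omega
    · intro h1; omega
  · rintro ⟨v, w⟩ hq
    rw [Finset.mem_coe, Finset.mem_filter, Finset.mem_product, mem_vec, mem_vec] at hq
    obtain ⟨⟨h1, h2⟩, c, h3⟩ := hq
    rw [Finset.mem_coe, Finset.mem_Ioo]
    have h4 := cs v w
    dsimp only at h1 h2 h3 ⊢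
    rw [h1, h2, h3] at h4
    rw [h3, Int.mul_ediv_cancel_left _ (by norm_num)]
    have h5 : ((n1 : ℤ) * n2) < 9 * (B : ℤ) ^ 2 := by exact_mod_cast h
    have h6 : c ^ 2 < (B : ℤ) ^ 2 := by nlinarith
    exact abs_lt.1 (abs_lt_of_sq_lt_sq h6 (by positivity))

theorem sum_symm (B : ℕ) (g : ℤ → ℤ) (hg : ∀ b, g (-b) = g b) (h0 : g 0 = 0) :
    ∑ b ∈ Ioo (-(B : ℤ)) B, g b = 2 * ∑ b ∈ Ioo (0 : ℤ) B, g b := by
  have e1 : Ioo (-(B : ℤ)) B = ((Ioo (0 : ℤ) B).image (fun x => -x)) ∪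
      ((Ioo (-(B : ℤ)) B).filter (fun x => x = 0)) ∪ Ioo (0 : ℤ) B := by
    ext x
    simp only [Finset.mem_Ioo, Finset.mem_union, Finset.mem_image, Finset.mem_filter]
    constructor
    · rintro ⟨h1, h2⟩
      rcases lt_trichotomy x 0 with h | h | h
      · exact Or.inl (Or.inl ⟨-x, ⟨by omega, by omega⟩, by omega⟩)
      · exact Or.inl (Or.inr ⟨⟨h1, h2⟩, h⟩)
      · exact Or.inr ⟨h, h2⟩
    · rintro ((⟨y, ⟨h1, h2⟩, rfl⟩ | ⟨⟨h1, h2⟩, h3⟩) | ⟨h1, h2⟩) <;> constructor <;> omega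
  rw [e1, Finset.sum_union, Finset.sum_union, Finset.sum_image]
  · have : ∑ x ∈ (Ioo (-(B : ℤ)) B).filter (fun x => x = 0), g x = 0 := by
      refine Finset.sum_eq_zero fun x hx => ?_
      rw [(Finset.mem_filter.1 hx).2, h0]
    rw [this, add_zero, two_mul]
    congr 1
    exact Finset.sum_congr rfl fun x _ => hg x
  · intro x _ y _ hxy
    exact neg_injective hxy
  · rw [Finset.disjoint_left]
    intro x hx hx'
    simp only [Finset.mem_image, Finset.mem_Ioo, Finset.mem_filter] at hx hx'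
    omega
  · rw [Finset.disjoint_left]
    intro x hx hx'
    simp only [Finset.mem_union, Finset.mem_image, Finset.mem_Ioo, Finset.mem_filter] at hx hx'
    omega

theorem fact_two_odd {D : ℕ} (h : D % 2 = 1) : ¬ 2 ≤ D.factorization 2 := by
  rw [Nat.factorization_eq_zero_of_not_dvd (by omega)]
  norm_num

theorem s_U32 (hPC : S_PC) : S_U32 := by
  intro n hn
  obtain ⟨hs, h60⟩ := hn
  have h2 : ¬ 2 ∣ n := by omega
  have h3 : ¬ 3 ∣ n := by omega
  have hn1 : 1 < n := by omega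
  set B : ℕ := Nat.sqrt (n / 3) + 1 with hB
  have hB1 : n < 3 * B ^ 2 := by
    have := Nat.lt_succ_sqrt' (n / 3)
    rw [Nat.succ_eq_add_one, ← hB] at this
    omega
  have hb : ∀ b : ℤ, b ∈ Ioo (-(B : ℤ)) B → 0 < 3 * (n : ℤ) - (3 * b) ^ 2 := by
    intro b hb
    rw [Finset.mem_Ioo] at hb
    have h4 : |b| ≤ Nat.sqrt (n / 3) := by
      rw [abs_le]
      constructor <;> omega
    have h5 : b ^ 2 ≤ ((Nat.sqrt (n / 3) ^ 2 : ℕ) : ℤ) := by
      rw [← sq_abs]
      push_cast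
      exact pow_le_pow_left₀ (abs_nonneg _) h4 2
    have h6 : ((Nat.sqrt (n / 3) ^ 2 : ℕ) : ℤ) ≤ ((n / 3 : ℕ) : ℤ) := by
      exact_mod_cast Nat.sqrt_le' (n / 3)
    have h7 : 3 * b ^ 2 ≤ n := by omega
    have h8 : 3 * b ^ 2 ≠ n := by omega
    have h9 : 3 * b ^ 2 < n := lt_of_le_of_ne h7 h8
    nlinarith
  have key : ∀ d ∈ n.divisors.filter (fun d => d % 4 = 1),
      (cp0 (3 * d : ℕ) (n / d : ℕ) : ℤ) =
      ∑ b ∈ Ioo (-(B : ℤ)) B, 6 * loc (3 * d) (3 * (n : ℤ) - (3 * b) ^ 2).toNat := by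
    intro d hd
    rw [Finset.mem_filter, Nat.mem_divisors] at hd
    obtain ⟨⟨hdn, hn0⟩, hd4⟩ := hd
    have e1 : d * (n / d) = n := Nat.mul_div_cancel' hdn
    have e2 : 3 * d * (n / d) = 3 * n := by rw [mul_assoc, e1]
    rw [cp0_sum (B := B) (by rw [e2]; omega)]
    refine Finset.sum_congr rfl fun b hb' => ?_
    have hpos := hb b hb'
    refine hPC (3 * d) (n / d) (3 * b) _ ?_ (by omega) ?_ ?_ ?_
    · rw [Nat.squarefree_mul_iff]
      refine ⟨?_, Nat.prime_three.squarefree, hs.squarefree_of_dvd hdn⟩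
      exact (Nat.Prime.coprime_iff_not_dvd Nat.prime_three).2 fun h => h3 (h.trans hdn)
    · intro h
      rcases (Nat.Prime.dvd_mul Nat.prime_five).1 h with h | h
      · omega
      · have := h.trans hdn
        omega
    · omega
    · rw [Int.toNat_of_nonneg hpos.le]
      have : ((3 * d : ℕ) : ℤ) * ((n / d : ℕ) : ℤ) = 3 * (n : ℤ) := by exact_mod_cast e2
      rw [this]
  rw [Finset.sum_congr rfl key, Finset.sum_comm]
  have e3 : ∀ b ∈ Ioo (-(B : ℤ)) B, ∑ d ∈ n.divisors.filter (fun d => d % 4 = 1),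
      6 * loc (3 * d) (3 * (n : ℤ) - (3 * b) ^ 2).toNat = 6 *
      (fun b : ℤ => ∑ d ∈ n.divisors.filter (fun d => d % 4 = 1),
        loc (3 * d) (3 * (n : ℤ) - (3 * b) ^ 2).toNat) b := by
    intro b _
    rw [Finset.mul_sum]
  rw [Finset.sum_congr rfl e3, ← Finset.mul_sum, sum_symm]
  · have hk : n.primeFactors.card - 1 + 1 = n.primeFactors.card := by
      have : 0 < n.primeFactors.card := Finset.card_pos.2 (Nat.nonempty_primeFactors.2 hn1)
      omega
    have hdiv : (2 : ℤ) ^ (n.primeFactors.card - 1) ∣ ∑ b ∈ Ioo (0 : ℤ) B,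
        (fun b : ℤ => ∑ d ∈ n.divisors.filter (fun d => d % 4 = 1),
        loc (3 * d) (3 * (n : ℤ) - (3 * b) ^ 2).toNat) b := by
      refine Finset.dvd_sum fun b hb' => ?_
      have hb'' : b ∈ Ioo (-(B : ℤ)) B := by
        rw [Finset.mem_Ioo] at hb' ⊢
        omega
      have hpos := hb b hb''
      set D := (3 * (n : ℤ) - (3 * b) ^ 2).toNat with hD
      have hDD : (D : ℤ) = 3 * (n : ℤ) - (3 * b) ^ 2 := Int.toNat_of_nonneg hpos.le
      have hD0 : D ≠ 0 := by omega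
      have e4 : (D : ℤ) = 3 * ((n : ℤ) - 3 * b ^ 2) := by rw [hDD]; ring
      have h3D : 3 ∣ D := by
        have : (3 : ℤ) ∣ (D : ℤ) := ⟨_, e4⟩
        exact_mod_cast this
      have e5 : ((D / 3 : ℕ) : ℤ) = (n : ℤ) - 3 * b ^ 2 := by
        push_cast
        rw [e4, Int.mul_ediv_cancel_left _ (by norm_num)]
      have e6 : D / 3 % 3 = 2 := by omega
      refine div32 hs h2 h3 hn1 hD0 ?_ e6 (hy_three (b := 3 * b) hs hD0 hDD)
      obtain ⟨E, hE⟩ := h3D
      have hE0 : E ≠ 0 := by rintro rfl; omega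
      have hE3 : ¬ 3 ∣ E := by
        rw [hE, Nat.mul_div_cancel_left _ (by norm_num)] at e6
        omega
      rw [hE, Nat.factorization_mul (by norm_num) hE0, Finsupp.add_apply,
        Nat.prime_three.factorization_self, Nat.factorization_eq_zero_of_not_dvd hE3]
    have e7 : n.primeFactors.card + 1 = (n.primeFactors.card - 1) + 2 := by omega
    rw [e7, pow_add]
    obtain ⟨c, hc⟩ := hdiv
    rw [hc]
    exact ⟨3 * c, by ring⟩
  · intro b
    have : (3 * -b) ^ 2 = (3 * b) ^ 2 := by ring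
    rw [this]
  · refine Finset.sum_eq_zero fun d _ => loc_zero_2 (fact_two_odd ?_)
    omega

theorem sum_four (s : Finset ℤ) (g : ℤ → ℤ) (r : ℤ)
    (hg : ∀ b ∈ s, g b ≠ 0 → (b % 3 = 1 ∨ b % 3 = 2) ∧ (b % 5 = r ∨ b % 5 = 5 - r)) :
    ∑ b ∈ s, g b = ∑ b ∈ s.filter (fun b => b % 3 = 1 ∧ b % 5 = r), g b +
      ∑ b ∈ s.filter (fun b => b % 3 = 1 ∧ b % 5 = 5 - r), g b +
      ∑ b ∈ s.filter (fun b => b % 3 = 2 ∧ b % 5 = r), g b +
      ∑ b ∈ s.filter (fun b => b % 3 = 2 ∧ b % 5 = 5 - r), g b := by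
  rw [Finset.sum_filter, Finset.sum_filter, Finset.sum_filter, Finset.sum_filter,
    ← Finset.sum_add_distrib, ← Finset.sum_add_distrib, ← Finset.sum_add_distrib]
  refine Finset.sum_congr rfl fun b hb => ?_
  by_cases h0 : g b = 0
  · simp [h0]
  · obtain ⟨h1, h2⟩ := hg b hb h0
    rcases h1 with h1 | h1 <;> rcases h2 with h2 | h2
    · rw [if_pos ⟨h1, h2⟩, if_neg (by omega), if_neg (by omega), if_neg (by omega)]; ring
    · rw [if_neg (by omega), if_pos ⟨h1, h2⟩, if_neg (by omega), if_neg (by omega)]; ring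
    · rw [if_neg (by omega), if_neg (by omega), if_pos ⟨h1, h2⟩, if_neg (by omega)]; ring
    · rw [if_neg (by omega), if_neg (by omega), if_neg (by omega), if_pos ⟨h1, h2⟩]; ring

theorem s_U33 (hPC : S_PC) (hR : S_REL22) (hC : S_CP3) : S_U33 := by
  intro m hm hm1
  obtain ⟨hs, h4, h3, h5⟩ := hm
  have h2 : ¬ 2 ∣ m := by omega
  have hnsq : ∀ b : ℤ, b ^ 2 ≠ m := by
    intro b hb
    have h1 : b.natAbs * b.natAbs ∣ m := by
      have : ((b.natAbs * b.natAbs : ℕ) : ℤ) = m := by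
        push_cast
        rw [← hb, ← sq, sq_abs]
      have : b.natAbs * b.natAbs = m := by exact_mod_cast this
      rw [this]
    have h6 := Nat.isUnit_iff.1 (hs _ h1)
    have : b ^ 2 = 1 := by
      rw [← Int.natAbs_sq b, h6]; norm_num
    rw [this] at hb
    omega
  set B : ℕ := Nat.sqrt m + 1 with hB
  have hB1 : m < B ^ 2 := by
    have := Nat.lt_succ_sqrt' m
    rwa [Nat.succ_eq_add_one, ← hB] at this
  have hb : ∀ b : ℤ, b ∈ Ioo (-(B : ℤ)) B → 0 < (m : ℤ) - b ^ 2 := by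
    intro b hb
    rw [Finset.mem_Ioo] at hb
    have h4 : |b| ≤ Nat.sqrt m := by
      rw [abs_le]
      constructor <;> omega
    have h5 : b ^ 2 ≤ ((Nat.sqrt m ^ 2 : ℕ) : ℤ) := by
      rw [← sq_abs]
      push_cast
      exact pow_le_pow_left₀ (abs_nonneg _) h4 2
    have h6 : ((Nat.sqrt m ^ 2 : ℕ) : ℤ) ≤ (m : ℤ) := by
      exact_mod_cast Nat.sqrt_le' m
    have h8 := hnsq b
    have h9 : b ^ 2 < m := lt_of_le_of_ne (h5.trans h6) h8
    linarith
  have key : ∀ d ∈ m.divisors.filter (fun d => d % 4 = 1),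
      (cp0 (3 * d : ℕ) (3 * (m / d) : ℕ) : ℤ) =
      ∑ b ∈ Ioo (-(B : ℤ)) B, 6 * loc (3 * d) (9 * ((m : ℤ) - b ^ 2).toNat) := by
    intro d hd
    rw [Finset.mem_filter, Nat.mem_divisors] at hd
    obtain ⟨⟨hdn, hn0⟩, hd4⟩ := hd
    have e1 : d * (m / d) = m := Nat.mul_div_cancel' hdn
    have e2 : 3 * d * (3 * (m / d)) = 9 * m := by
      calc 3 * d * (3 * (m / d)) = 9 * (d * (m / d)) := by ring
        _ = 9 * m := by rw [e1]
    rw [cp0_sum (B := B) (by rw [e2]; omega)]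
    refine Finset.sum_congr rfl fun b hb' => ?_
    have hpos := hb b hb'
    refine hPC (3 * d) (3 * (m / d)) (3 * b) _ ?_ (by omega) ?_ ?_ ?_
    · rw [Nat.squarefree_mul_iff]
      refine ⟨?_, Nat.prime_three.squarefree, hs.squarefree_of_dvd hdn⟩
      exact (Nat.Prime.coprime_iff_not_dvd Nat.prime_three).2 fun h => h3 (h.trans hdn)
    · intro h
      rcases (Nat.Prime.dvd_mul Nat.prime_five).1 h with h | h
      · omega
      · have := h.trans hdn
        omega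
    · omega
    · rw [Nat.cast_mul 9, Int.toNat_of_nonneg hpos.le]
      have : ((3 * d : ℕ) : ℤ) * ((3 * (m / d) : ℕ) : ℤ) = 9 * (m : ℤ) := by exact_mod_cast e2
      rw [this]
      push_cast
      ring
  rw [Finset.sum_congr rfl key, Finset.sum_comm]
  have e3 : ∀ b ∈ Ioo (-(B : ℤ)) B, ∑ d ∈ m.divisors.filter (fun d => d % 4 = 1),
      6 * loc (3 * d) (9 * ((m : ℤ) - b ^ 2).toNat) = 6 *
      (fun b : ℤ => ∑ d ∈ m.divisors.filter (fun d => d % 4 = 1),
        loc (3 * d) (9 * ((m : ℤ) - b ^ 2).toNat)) b := by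
    intro b _
    rw [Finset.mul_sum]
  rw [Finset.sum_congr rfl e3, ← Finset.mul_sum, sum_symm]
  rotate_left
  · intro b
    have : (-b) ^ 2 = b ^ 2 := by ring
    rw [this]
  · refine Finset.sum_eq_zero fun d _ => loc_zero_2 (fact_two_odd ?_)
    omega
  set P := m.divisors.filter (fun d => d % 4 = 3 ∧ d % 3 = 2) with hP
  -- the local facts
  have hloc : ∀ b ∈ Ioo (-(B : ℤ)) B,
      ((2 : ℤ) ^ m.primeFactors.card ∣
        ∑ d ∈ m.divisors.filter (fun d => d % 4 = 1), loc (3 * d) (9 * ((m : ℤ) - b ^ 2).toNat) -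
        2 * ∑ d ∈ P, loc3 d ((m : ℤ) - b ^ 2).toNat) ∧
      (2 : ℤ) ^ m.primeFactors.card ∣ 4 * ∑ d ∈ P, loc3 d ((m : ℤ) - b ^ 2).toNat := by
    intro b hb'
    have hpos := hb b hb'
    set E := ((m : ℤ) - b ^ 2).toNat with hE
    have hEE : (E : ℤ) = m - b ^ 2 := Int.toNat_of_nonneg hpos.le
    have hE0 : E ≠ 0 := by omega
    have := div33 hs h2 h3 hE0 (hy_nine (b := 3 * b) hs (Nat.mul_ne_zero (by norm_num) hE0)
      (by push_cast; rw [hEE]; ring)) (hy_one (b := b) hs hE0 hEE)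
    have e : ∑ d ∈ P, loc3 d E = (E.factorization 3 : ℤ) * ∑ d ∈ P, lrest d E := by
      rw [Finset.mul_sum]
      rfl
    rw [e]
    refine ⟨?_, ?_⟩
    · have := this.1
      rwa [mul_assoc] at this
    · have h6 : 4 * ((E.factorization 3 : ℤ) * ∑ d ∈ P, lrest d E) =
        (E.factorization 3 : ℤ) * (4 * ∑ d ∈ P, lrest d E) := by ring
      rw [h6]
      exact Dvd.dvd.mul_left this.2 _
  -- reduction to the sum of the other local densities
  have hred : (2 : ℤ) ^ m.primeFactors.card ∣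
      2 * ∑ b ∈ Ioo (0 : ℤ) B, ∑ d ∈ P, loc3 d ((m : ℤ) - b ^ 2).toNat := by
    have e0 : 2 * ∑ b ∈ Ioo (0 : ℤ) B, ∑ d ∈ P, loc3 d ((m : ℤ) - b ^ 2).toNat =
        ∑ b ∈ Ioo (-(B : ℤ)) B, ∑ d ∈ P, loc3 d ((m : ℤ) - b ^ 2).toNat := by
      rw [sum_symm B (fun b => ∑ d ∈ P, loc3 d ((m : ℤ) - b ^ 2).toNat)]
      · intro b
        have : (-b) ^ 2 = b ^ 2 := by ring
        rw [this]
      · refine Finset.sum_eq_zero fun d _ => ?_
        rw [loc3, lrest_zero_2 (fact_two_odd (by omega)), mul_zero]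
    rw [e0]
    -- the residue of `m` modulo five
    obtain ⟨r, hr0, hr5, hrm⟩ : ∃ r : ℤ, 0 < r ∧ 2 * r < 5 ∧ (r * r - (m : ℤ)) % 5 = 0 := by
      rcases h5 with h5 | h5
      · exact ⟨1, by norm_num, by norm_num, by omega⟩
      · exact ⟨2, by norm_num, by norm_num, by omega⟩
    by_cases hm3 : m % 3 = 1
    swap
    · have hz : ∀ b ∈ Ioo (-(B : ℤ)) B, ∑ d ∈ P, loc3 d ((m : ℤ) - b ^ 2).toNat = 0 := by
        intro b hb'
        have hpos := hb b hb'
        refine Finset.sum_eq_zero fun d _ => ?_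
        have h6 : ¬ 3 ∣ ((m : ℤ) - b ^ 2).toNat := by
          intro h
          have h7 : (3 : ℤ) ∣ (m : ℤ) - b ^ 2 := by
            rw [← Int.toNat_of_nonneg hpos.le]
            exact_mod_cast h
          have h8 : b % 3 = 0 ∨ b % 3 = 1 ∨ b % 3 = 2 := by omega
          rcases h8 with h8 | h8 | h8
          · have : b ^ 2 % 3 = 0 := by rw [sq, Int.mul_emod, h8]; norm_num
            omega
          · have : b ^ 2 % 3 = 1 := by rw [sq, Int.mul_emod, h8]; norm_num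
            omega
          · have : b ^ 2 % 3 = 1 := by rw [sq, Int.mul_emod, h8]; norm_num
            omega
        rw [loc3, Nat.factorization_eq_zero_of_not_dvd h6]
        simp
      rw [Finset.sum_eq_zero hz]
      exact dvd_zero _
    -- the sums over the classes
    have hw : ∀ d ∈ P, ∀ r3 r5 : ℤ, (r3 = 1 ∨ r3 = 2) → (r5 = r ∨ r5 = 5 - r) →
        144 * ∑ b ∈ (Ioo (-(B : ℤ)) B).filter (fun b => b % 3 = r3 ∧ b % 5 = r5),
          loc3 d ((m : ℤ) - b ^ 2).toNat = 3 * rr d * rr (m / d : ℕ) + cc d * cc (m / d : ℕ) := by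
      intro d hd r3 r5 hr3 hr5'
      rw [hP, Finset.mem_filter, Nat.mem_divisors] at hd
      obtain ⟨⟨hdn, hn0⟩, hd4, hd3⟩ := hd
      have e1 : d * (m / d) = m := Nat.mul_div_cancel' hdn
      have hd3' : m / d % 3 = 2 := by
        have h6 : (d * (m / d)) % 3 = 1 := by rw [e1]; exact hm3
        rw [Nat.mul_mod, hd3] at h6
        have : m / d % 3 = 0 ∨ m / d % 3 = 1 ∨ m / d % 3 = 2 := by omega
        rcases this with h | h | h
        · rw [h] at h6; omega
        · rw [h] at h6; omega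
        · exact h
      have h5d : ¬ 5 ∣ d := fun h => by have := h.trans hdn; omega
      have h5d' : ¬ 5 ∣ m / d := fun h => by have := h.trans (Nat.div_dvd_of_dvd hdn); omega
      have e2 : (d : ℤ) * ((m / d : ℕ) : ℤ) = m := by exact_mod_cast e1
      have hr5m : (5 : ℤ) ∣ r5 ^ 2 - (d : ℤ) * ((m / d : ℕ) : ℤ) := by
        rw [e2]
        rcases hr5' with rfl | rfl
        · rw [sq]; omega
        · have : (5 - r) ^ 2 - (m : ℤ) = (r * r - m) + 5 * (5 - 2 * r) := by ring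
          rw [this]; omega
      rw [← hR d (m / d) hd3 hd3' h5d h5d' r3 r5 hr3 (by omega) (by omega) hr5m B
        (by rw [e2]; exact_mod_cast hB1) (by positivity), Finset.mul_sum, Finset.mul_sum]
      refine Finset.sum_congr rfl fun b hb' => ?_
      rw [Finset.mem_filter] at hb'
      have hpos := hb b hb'.1
      rw [hC d (m / d) b ((m : ℤ) - b ^ 2).toNat (hs.squarefree_of_dvd hdn) hd4 hd3 hd3' h5d
        (by omega) (by omega) (by rw [e2]; exact Int.toNat_of_nonneg hpos.le)]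
      ring
    have hv : ∀ d ∈ P, ∑ b ∈ Ioo (-(B : ℤ)) B, loc3 d ((m : ℤ) - b ^ 2).toNat =
        4 * ∑ b ∈ (Ioo (-(B : ℤ)) B).filter (fun b => b % 3 = 1 ∧ b % 5 = r),
          loc3 d ((m : ℤ) - b ^ 2).toNat := by
      intro d hd
      rw [sum_four _ _ r]
      · have w1 := hw d hd 1 r (Or.inl rfl) (Or.inl rfl)
        have w2 := hw d hd 1 (5 - r) (Or.inl rfl) (Or.inr rfl)
        have w3 := hw d hd 2 r (Or.inr rfl) (Or.inl rfl)
        have w4 := hw d hd 2 (5 - r) (Or.inr rfl) (Or.inr rfl)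
        linarith
      · intro b hb' hne
        have hpos := hb b hb'
        have hEE := Int.toNat_of_nonneg hpos.le
        constructor
        · by_contra hcon
          have h6 : b % 3 = 0 := by omega
          apply hne
          have h7 : ¬ 3 ∣ ((m : ℤ) - b ^ 2).toNat := by
            intro h
            have h7 : (3 : ℤ) ∣ (m : ℤ) - b ^ 2 := by
              rw [← hEE]
              exact_mod_cast h
            have : b ^ 2 % 3 = 0 := by rw [sq, Int.mul_emod, h6]; norm_num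
            omega
          rw [loc3, Nat.factorization_eq_zero_of_not_dvd h7]
          simp
        · by_contra hcon
          push Not at hcon
          apply hne
          have h7 : ¬ 5 ∣ ((m : ℤ) - b ^ 2).toNat := by
            intro h
            have h7 : (5 : ℤ) ∣ (m : ℤ) - b ^ 2 := by
              rw [← hEE]
              exact_mod_cast h
            have h8 : r = 1 ∨ r = 2 := by omega
            have h9 : b % 5 = 0 ∨ b % 5 = 1 ∨ b % 5 = 2 ∨ b % 5 = 3 ∨ b % 5 = 4 := by omega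
            rcases h9 with h9 | h9 | h9 | h9 | h9
            · have : b ^ 2 % 5 = 0 := by rw [sq, Int.mul_emod, h9]; norm_num
              omega
            · have : b ^ 2 % 5 = 1 := by rw [sq, Int.mul_emod, h9]; norm_num
              rcases h8 with rfl | rfl <;> omega
            · have : b ^ 2 % 5 = 4 := by rw [sq, Int.mul_emod, h9]; norm_num
              rcases h8 with rfl | rfl <;> omega
            · have : b ^ 2 % 5 = 4 := by rw [sq, Int.mul_emod, h9]; norm_num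
              rcases h8 with rfl | rfl <;> omega
            · have : b ^ 2 % 5 = 1 := by rw [sq, Int.mul_emod, h9]; norm_num
              rcases h8 with rfl | rfl <;> omega
          rw [loc3, lrest, Nat.factorization_eq_zero_of_not_dvd h7]
          simp
    rw [Finset.sum_comm, Finset.sum_congr rfl hv, ← Finset.mul_sum, Finset.sum_comm,
      Finset.mul_sum]
    refine Finset.dvd_sum fun b hb' => ?_
    rw [Finset.mem_filter] at hb'
    exact (hloc b hb'.1).2
  have hfin : (2 : ℤ) ^ m.primeFactors.card ∣ ∑ b ∈ Ioo (0 : ℤ) B,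
      (fun b : ℤ => ∑ d ∈ m.divisors.filter (fun d => d % 4 = 1),
        loc (3 * d) (9 * ((m : ℤ) - b ^ 2).toNat)) b := by
    have e5 : ∑ b ∈ Ioo (0 : ℤ) B,
      (fun b : ℤ => ∑ d ∈ m.divisors.filter (fun d => d % 4 = 1),
        loc (3 * d) (9 * ((m : ℤ) - b ^ 2).toNat)) b =
        ∑ b ∈ Ioo (0 : ℤ) B, (∑ d ∈ m.divisors.filter (fun d => d % 4 = 1),
          loc (3 * d) (9 * ((m : ℤ) - b ^ 2).toNat) -
          2 * ∑ d ∈ P, loc3 d ((m : ℤ) - b ^ 2).toNat) +
        2 * ∑ b ∈ Ioo (0 : ℤ) B, ∑ d ∈ P, loc3 d ((m : ℤ) - b ^ 2).toNat := by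
      rw [Finset.mul_sum, ← Finset.sum_add_distrib]
      refine Finset.sum_congr rfl fun b _ => ?_
      ring
    rw [e5]
    refine dvd_add (Finset.dvd_sum fun b hb' => ?_) hred
    refine (hloc b ?_).1
    rw [Finset.mem_Ioo] at hb' ⊢
    omega
  obtain ⟨c, hc⟩ := hfin
  rw [hc, pow_add]
  exact ⟨3 * c, by ring⟩

end Pool.Agent.N871.P15
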